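import Pool.Agent.H598.LB.Blk

/-!
# The existence of representations
-/

namespace Pool.Agent.H598.LB

open Finset Polynomial Pool.Agent.H598.FQ
open Pool.Agent.H598.DG (Kn ism mis DN MN mem_DN mem_MN)
open Pool.Agent.H598.TK (wp wp_monic wp_natDegree wp_inj exists_wp pf Wr mem_Wr card_Wr gs prs
  sum_gs_sq card_prs bb cc EP EP_eq EP_mem natDegree_bb coeff_bb ZZ SM S0)
open Pool.Agent.H598.AS
open scoped Classical

variable {F : Type*} [Field F] [Fintype F]

/-- The block. -/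
noncomputable def blk {Y Y' : Type*} {R : ℕ} (k : ℕ) (D : Y → F[X]) (D' : Y' → F[X])
    (r : degreeLT F R) (x : Y' × Y × Y) : F[X] := wp r ^ k * D' x.1 + D x.2.1 + D x.2.2

omit [Fintype F] in
lemma blk_mem {Y Y' : Type*} {R P n₀ k : ℕ} (hk : 1 ≤ k) (hP : R + (n₀ + 1) = P)
    {D : Y → F[X]} {D' : Y' → F[X]} (hD : ∀ y, D y ∈ degreeLT F (k * P))
    (hD' : ∀ y, (D' y).natDegree ≤ k * n₀) (r : degreeLT F R) (x : Y' × Y × Y) :
    blk k D D' r x ∈ degreeLT F (k * P) := by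
  unfold blk
  refine Submodule.add_mem _ (Submodule.add_mem _ ?_ (hD _)) (hD _)
  have h1 : (wp r ^ k * D' x.1).natDegree ≤ k * R + k * n₀ := by
    refine le_trans natDegree_mul_le (Nat.add_le_add ?_ (hD' _))
    refine le_trans natDegree_pow_le ?_
    rw [wp_natDegree]
  have h2 : k * R + k * n₀ + 1 ≤ k * P := by
    rw [← hP]
    have e : k * (R + (n₀ + 1)) = k * R + k * n₀ + k := by ring
    omega
  exact V_mono h2 (mem_V_succ_iff.2 h1)

/-- The minor functionals, summed over the blocks. -/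
lemma sum_SM_blk {ψ : AddChar F ℂ} {Y Y' : Type*} [Fintype Y] [Fintype Y'] {k s R P : ℕ}
    (c : Fin s → F) (m : F[X]) (D : Y → F[X]) (D' : Y' → F[X]) :
    ∑ r ∈ Wr F R, ∑ x : Y' × Y × Y, SM ψ k c P (m - blk k D D' r x)
      = ∑ α ∈ MN F (k * P) ((k - 1) * P) P,
        ψ (-(lin α m)) * ((∏ i, S0 ψ (lin α) k c P i) *
          (FD ψ (lin α) k R D' * (SD ψ (lin α) D * SD ψ (lin α) D))) := by
  have h1 : ∀ (r : degreeLT F R) (x : Y' × Y × Y), SM ψ k c P (m - blk k D D' r x)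
      = ∑ α ∈ MN F (k * P) ((k - 1) * P) P,
        ψ (-(lin α m)) * ((∏ i, S0 ψ (lin α) k c P i) * ψ (lin α (blk k D D' r x))) :=
    fun r x => SM_block c m _
  have h2 : ∀ r ∈ Wr F R, ∑ x : Y' × Y × Y, SM ψ k c P (m - blk k D D' r x)
      = ∑ α ∈ MN F (k * P) ((k - 1) * P) P, ψ (-(lin α m)) * ((∏ i, S0 ψ (lin α) k c P i) *
        ∑ x : Y' × Y × Y, ψ (lin α (blk k D D' r x))) := by
    intro r _
    rw [Finset.sum_congr rfl (fun x _ => h1 r x), Finset.sum_comm]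
    apply Finset.sum_congr rfl
    intro α _
    rw [← Finset.mul_sum, ← Finset.mul_sum]
  rw [Finset.sum_congr rfl h2, Finset.sum_comm]
  apply Finset.sum_congr rfl
  intro α _
  rw [← Finset.mul_sum, ← Finset.mul_sum]
  congr 2
  unfold FD SD
  rw [Finset.sum_mul]
  apply Finset.sum_congr rfl
  intro r _
  rw [Fintype.sum_prod_type, Finset.sum_mul]
  apply Finset.sum_congr rfl
  intro y' _
  rw [Fintype.sum_prod_type, Finset.sum_mul_sum, Finset.mul_sum]
  apply Finset.sum_congr rfl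
  intro y₁ _
  rw [Finset.mul_sum]
  apply Finset.sum_congr rfl
  intro y₂ _
  have e : lin α (wp r ^ k * D' y' + D y₁ + D y₂)
      = lin α (wp r ^ k * D' y') + lin α (D y₁) + lin α (D y₂) := by rw [map_add, map_add]
  change ψ (lin α (wp r ^ k * D' y' + D y₁ + D y₂)) = _
  rw [e, AddChar.map_add_eq_mul, AddChar.map_add_eq_mul, mul_assoc]

/-- The existence of a block for which the full variables have a solution. -/
theorem exists_zeroD {ψ : AddChar F ℂ} (hψ : ψ ≠ 1) {k R P n₀ ω : ℕ} (hk : 2 ≤ k)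
    (hkF : (k : F) ≠ 0) (hq : 128 * k ^ 6 ≤ Fintype.card F)
    {Y Y' : Type*} [Fintype Y] [Fintype Y'] [Nonempty Y] [Nonempty Y']
    {D : Y → F[X]} {D' : Y' → F[X]} (hD : ∀ y, D y ∈ degreeLT F (k * P))
    (hD' : ∀ y, (D' y).natDegree ≤ k * n₀)
    (hR : 3 ≤ R) (hn : R + 1 ≤ n₀ + 1) (hnk : k ≤ n₀ + 1) (hP : R + (n₀ + 1) = P)
    (hω : ∀ g : F[X], g ≠ 0 → g.natDegree ≤ k * R → (pf g).card ≤ ω)
    (hnum : 16 * (coll D' * (Fintype.card F ^ (k * n₀ + 1) * ((Wr F R).card * (1 + k ^ ω)))) *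
      (Fintype.card F ^ (k * P) * coll D) ^ 2
        ≤ ((Wr F R).card * (Fintype.card Y' * Fintype.card Y ^ 2)) ^ 2)
    {c : Fin (6 * k) → F} {i₀ : Fin (6 * k)} (hi₀ : c i₀ ≠ 0) {m : F[X]}
    (hm : m ∈ degreeLT F (k * P + 1)) (hc : ∑ i, c i ^ k = m.coeff (k * P)) :
    ∃ r ∈ Wr F R, ∃ x : Y' × Y × Y, ZZ k c P (m - blk k D D' r x) ≠ 0 := by
  by_contra hno
  push Not at hno
  set q : ℝ := (Fintype.card F : ℝ) with hqdef
  have hq0 : 0 < q := by rw [hqdef]; exact_mod_cast Fintype.card_pos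
  set W : ℝ := ((Wr F R).card : ℝ) with hW
  have hW0 : 0 < W := by
    have h1 := card_Wr (F := F) hR
    have h2 : 0 < Fintype.card F ^ R := Nat.pow_pos Fintype.card_pos
    rw [hW]
    have : 0 < (Wr F R).card := by
      rcases Nat.eq_zero_or_pos (Wr F R).card with h | h
      · rw [h] at h1; omega
      · exact h
    exact_mod_cast this
  set Q : ℝ := (q ^ P) ^ (6 * k) with hQ
  have hQ0 : 0 < Q := by positivity
  have hst : ∀ (r : degreeLT F R) (x : Y' × Y × Y), blk k D D' r x ∈ degreeLT F (k * P) :=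
    fun r x => blk_mem (by omega) hP hD hD' r x
  have hmo : ∀ (r : degreeLT F R) (x : Y' × Y × Y),
      m - blk k D D' r x ∈ degreeLT F (k * P + 1) := by
    intro r x
    exact Submodule.sub_mem _ hm (V_mono (Nat.le_succ _) (hst r x))
  have hmc : ∀ (r : degreeLT F R) (x : Y' × Y × Y),
      ∑ i, c i ^ k = (m - blk k D D' r x).coeff (k * P) := by
    intro r x
    rw [coeff_sub, mem_V_iff.1 (hst r x) (k * P) le_rfl, sub_zero, hc]
  have hper : ∀ r ∈ Wr F R, ∀ x : Y' × Y × Y,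
      ‖((Q : ℝ) : ℂ) + SM ψ k c P (m - blk k D D' r x)‖ ≤ Q / 15 := by
    intro r hr x
    have h1 := per_m hψ hk hkF (show 1 ≤ P by omega) hi₀
      (fun d => Ad_bound hψ hk hkF hq (m - blk k D D' r x) d) (hmo r x) (hmc r x)
    rw [hno r hr x, Nat.cast_zero, mul_zero, Complex.ofReal_zero, sub_zero] at h1
    exact h1
  -- sum over the blocks
  set cx : ℝ := ((Fintype.card (Y' × Y × Y) : ℕ) : ℝ) with hcx
  have hcx0 : 0 < cx := by rw [hcx]; exact_mod_cast Fintype.card_pos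
  set Om : ℝ := W * cx with hOm
  have hOm0 : 0 < Om := by positivity
  have hsum : ‖((Om * Q : ℝ) : ℂ) + ∑ r ∈ Wr F R, ∑ x : Y' × Y × Y,
      SM ψ k c P (m - blk k D D' r x)‖ ≤ Om * (Q / 15) := by
    have e1 : ((Om * Q : ℝ) : ℂ) + ∑ r ∈ Wr F R, ∑ x : Y' × Y × Y,
        SM ψ k c P (m - blk k D D' r x)
        = ∑ r ∈ Wr F R, ∑ x : Y' × Y × Y,
          (((Q : ℝ) : ℂ) + SM ψ k c P (m - blk k D D' r x)) := by
      simp only [Finset.sum_add_distrib, Finset.sum_const, Finset.card_univ, nsmul_eq_mul]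
      congr 1
      rw [hOm, hcx, hW]
      push_cast
      ring
    rw [e1]
    refine le_trans (norm_sum_le _ _) ?_
    have h2 : ∀ r ∈ Wr F R, ‖∑ x : Y' × Y × Y,
        (((Q : ℝ) : ℂ) + SM ψ k c P (m - blk k D D' r x))‖ ≤ cx * (Q / 15) := by
      intro r hr
      refine le_trans (norm_sum_le _ _) ?_
      refine le_trans (Finset.sum_le_sum (fun x _ => hper r hr x)) ?_
      rw [Finset.sum_const, Finset.card_univ, nsmul_eq_mul]
    refine le_trans (Finset.sum_le_sum h2) ?_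
    rw [Finset.sum_const, nsmul_eq_mul, hOm, ← hW, mul_assoc]
  -- the minor arcs
  set T : ℝ := (coll D' : ℝ) * (q ^ (k * n₀ + 1) * (W * (1 + (k : ℝ) ^ ω))) with hT
  have hT0 : 0 ≤ T := by positivity
  have hFD : ∀ α ∈ MN F (k * P) ((k - 1) * P) P, ‖FD ψ (lin α) k R D'‖ ≤ Real.sqrt T := by
    intro α hα
    apply Real.le_sqrt_of_sq_le
    have h1 := FD_sq hψ (lin α) k R (b := k * n₀ + 1) D' (fun y => mem_V_succ_iff.2 (hD' y))
    have h2 := card_prs (R := R) (n := n₀ + 1) (P := P) (ω := ω) hk hkF (by omega) hn hnk hP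
      (mem_MN.1 hα) hω
    rw [Nat.add_sub_cancel] at h2
    refine le_trans h1 ?_
    rw [hT]
    apply mul_le_mul_of_nonneg_left _ (by positivity)
    apply mul_le_mul_of_nonneg_left _ (by positivity)
    have h3 : ((prs (lin α) k R (k * n₀ + 1)).card : ℝ)
        ≤ (((Wr F R).card * (1 + k ^ ω) : ℕ) : ℝ) := by exact_mod_cast h2
    refine le_trans h3 (le_of_eq ?_)
    rw [hW]
    push_cast
    ring
  set X' : ℝ := q ^ (k * P) * (coll D : ℝ) with hX
  have hX0 : 0 ≤ X' := by positivity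
  have h4 : 4 * Real.sqrt T * X' ≤ Om := by
    have h5 : (4 * Real.sqrt T * X') ^ 2 ≤ Om ^ 2 := by
      have e1 : (4 * Real.sqrt T * X') ^ 2 = 16 * T * X' ^ 2 := by
        rw [mul_pow, mul_pow, Real.sq_sqrt hT0]; ring
      rw [e1, hT, hX, hOm, hcx, hW, hqdef]
      have h6 : (Fintype.card (Y' × Y × Y)) = Fintype.card Y' * Fintype.card Y ^ 2 := by
        rw [Fintype.card_prod, Fintype.card_prod, pow_two]
      rw [h6]
      exact_mod_cast hnum
    exact le_of_pow_le_pow_left₀ (by norm_num) hOm0.le h5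
  have hSM : ‖∑ r ∈ Wr F R, ∑ x : Y' × Y × Y, SM ψ k c P (m - blk k D D' r x)‖
      ≤ Om * Q / 4 := by
    rw [sum_SM_blk]
    refine le_trans (norm_sum_le _ _) ?_
    have h1 : ∀ α ∈ MN F (k * P) ((k - 1) * P) P,
        ‖ψ (-(lin α m)) * ((∏ i, S0 ψ (lin α) k c P i) *
          (FD ψ (lin α) k R D' * (SD ψ (lin α) D * SD ψ (lin α) D)))‖
        ≤ Q * Real.sqrt T * ‖∑ y, ψ (lin α (D y))‖ ^ 2 := by
      intro α hα
      rw [norm_mul, AddChar.norm_apply, one_mul, norm_mul, norm_prod, norm_mul, norm_mul]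
      have e1 : ‖SD ψ (lin α) D‖ * ‖SD ψ (lin α) D‖ = ‖∑ y, ψ (lin α (D y))‖ ^ 2 := by
        unfold SD; ring
      rw [e1, mul_assoc Q]
      have e2 : 0 ≤ ‖∑ y, ψ (lin α (D y))‖ ^ 2 := pow_nonneg (norm_nonneg _) 2
      refine mul_le_mul (S0_prod_le ψ (lin α) k c P) ?_
        (mul_nonneg (norm_nonneg _) e2) hQ0.le
      exact mul_le_mul_of_nonneg_right (hFD α hα) e2
    refine le_trans (Finset.sum_le_sum h1) ?_
    rw [← Finset.mul_sum]
    have h2 : ∑ α ∈ MN F (k * P) ((k - 1) * P) P, ‖∑ y, ψ (lin α (D y))‖ ^ 2 ≤ X' := by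
      rw [hX, hqdef, ← sq_mean hψ D hD]
      exact Finset.sum_le_sum_of_subset_of_nonneg (Finset.subset_univ _)
        (fun _ _ _ => by positivity)
    calc Q * Real.sqrt T * ∑ α ∈ MN F (k * P) ((k - 1) * P) P, ‖∑ y, ψ (lin α (D y))‖ ^ 2
        ≤ Q * Real.sqrt T * X' := mul_le_mul_of_nonneg_left h2 (by positivity)
      _ = Q * (4 * Real.sqrt T * X') / 4 := by ring
      _ ≤ Q * Om / 4 := by
          apply div_le_div_of_nonneg_right _ (by norm_num)
          exact mul_le_mul_of_nonneg_left h4 hQ0.le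
      _ = Om * Q / 4 := by ring
  have h3 : Om * Q ≤ Om * (Q / 15) + Om * Q / 4 := by
    have h4 : ‖((Om * Q : ℝ) : ℂ)‖ ≤ ‖((Om * Q : ℝ) : ℂ) + ∑ r ∈ Wr F R,
        ∑ x : Y' × Y × Y, SM ψ k c P (m - blk k D D' r x)‖
        + ‖∑ r ∈ Wr F R, ∑ x : Y' × Y × Y, SM ψ k c P (m - blk k D D' r x)‖ := by
      have := norm_sub_le (((Om * Q : ℝ) : ℂ) + ∑ r ∈ Wr F R,
        ∑ x : Y' × Y × Y, SM ψ k c P (m - blk k D D' r x))
        (∑ r ∈ Wr F R, ∑ x : Y' × Y × Y, SM ψ k c P (m - blk k D D' r x))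
      rwa [add_sub_cancel_right] at this
    have h5 : ‖((Om * Q : ℝ) : ℂ)‖ = Om * Q := by
      rw [Complex.norm_real, Real.norm_of_nonneg (by positivity)]
    rw [h5] at h4
    linarith
  have h6 : 0 < Om * Q := by positivity
  linarith

end Pool.Agent.H598.LB
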