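import Pool.Agent.H598.LB.Sup2
import Pool.Agent.H598.TK.Final2

/-!
# Structured blocks and the major arcs
-/

namespace Pool.Agent.H598.LB

open Finset Polynomial Pool.Agent.H598.FQ
open Pool.Agent.H598.DG (Kn ism mis DN MN mem_DN mem_MN sum_splitN sum_DN_zero sum_all GG GG_mul
  geo16)
open Pool.Agent.H598.TK (wp wp_monic wp_natDegree wp_inj exists_wp pf pf_monic pf_irred pf_dvd
  sum_deg_pf Wr mem_Wr card_Wr gs prs sum_gs_sq card_prs bb cc EP EP_eq EP_mem natDegree_bb coeff_bb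
  hyp_of inf_of ZZ SM S0 QQ card_Yd Yd Inf Hyp EE)
open Pool.Agent.H598.AS
open scoped Classical

variable {F : Type*} [Field F] [Fintype F]

/-- The number of prime factors. -/
lemma card_pf_div {g : F[X]} (hg : g ≠ 0) {E : ℕ} (hE : 1 ≤ E) :
    (pf g).card ≤ Fintype.card F ^ E + g.natDegree / E := by
  rw [← Finset.card_filter_add_card_filter_not (s := pf g) (fun p => p.natDegree < E)]
  apply Nat.add_le_add
  · have h1 : Fintype.card F ^ E = (Finset.univ : Finset (degreeLT F E)).card := by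
      rw [Finset.card_univ, card_V]
    rw [h1, ← Finset.card_image_of_injective (Finset.univ : Finset (degreeLT F E))
      Subtype.val_injective]
    apply Finset.card_le_card
    intro p hp
    rw [Finset.mem_filter] at hp
    rw [Finset.mem_image]
    obtain ⟨e, rfl⟩ : ∃ e, E = e + 1 := ⟨E - 1, by omega⟩
    exact ⟨⟨p, mem_V_succ_iff.2 (by omega)⟩, Finset.mem_univ _, rfl⟩
  · rw [Nat.le_div_iff_mul_le (by omega)]
    calc ((pf g).filter (fun p => ¬ p.natDegree < E)).card * E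
        = ∑ _p ∈ (pf g).filter (fun p => ¬ p.natDegree < E), E := by
          rw [Finset.sum_const, smul_eq_mul]
      _ ≤ ∑ p ∈ (pf g).filter (fun p => ¬ p.natDegree < E), p.natDegree := by
          apply Finset.sum_le_sum
          intro p hp
          have := (Finset.mem_filter.1 hp).2
          omega
      _ ≤ ∑ p ∈ pf g, p.natDegree :=
          Finset.sum_le_sum_of_subset (Finset.filter_subset _ _)
      _ ≤ g.natDegree := sum_deg_pf hg

/-- Cauchy–Schwarz with multiplicities. -/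
lemma sq_sum_le {Y B : Type*} [Fintype Y] [Fintype B] (v : Y → B) (f : B → ℝ) :
    (∑ y, f (v y)) ^ 2 ≤ (coll v : ℝ) * ∑ b, f b ^ 2 := by
  have h1 : ∀ h : B → ℝ, ∑ y, h (v y)
      = ∑ b, ((Finset.univ.filter (fun y => v y = b)).card : ℝ) * h b := by
    intro h
    rw [← Finset.sum_fiberwise Finset.univ v (fun y => h (v y))]
    apply Finset.sum_congr rfl
    intro b _
    have h2 : ∀ y ∈ Finset.univ.filter (fun y => v y = b), h (v y) = h b := by
      intro y hy
      rw [(Finset.mem_filter.1 hy).2]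
    rw [Finset.sum_congr rfl h2, Finset.sum_const, nsmul_eq_mul]
  have h3 : (coll v : ℝ) = ∑ b, ((Finset.univ.filter (fun y => v y = b)).card : ℝ) ^ 2 := by
    have h4 := h1 (fun b => ((Finset.univ.filter (fun y => v y = b)).card : ℝ))
    have h5 : (coll v : ℝ) = ∑ y, ((Finset.univ.filter (fun y' => v y' = v y)).card : ℝ) := by
      rw [coll_eq, Finset.card_filter, Fintype.sum_prod_type]
      push_cast
      apply Finset.sum_congr rfl
      intro y _
      rw [Finset.card_filter]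
      push_cast
      apply Finset.sum_congr rfl
      intro y' _
      by_cases h : v y = v y'
      · rw [if_pos h, if_pos h.symm]
      · rw [if_neg h, if_neg (fun h' => h h'.symm)]
    rw [h5, h4]
    apply Finset.sum_congr rfl
    intro b _
    ring
  rw [h1 f, h3]
  exact Finset.sum_mul_sq_le_sq_mul_sq _ _ _

/-- The sum over a system. -/
noncomputable def SD {Y : Type*} [Fintype Y] (ψ : AddChar F ℂ) (L : F[X] →ₗ[F] F)
    (D : Y → F[X]) : ℂ := ∑ y, ψ (L (D y))

/-- The structured sum. -/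
noncomputable def FD {Y : Type*} [Fintype Y] (ψ : AddChar F ℂ) (L : F[X] →ₗ[F] F) (k R : ℕ)
    (D : Y → F[X]) : ℂ := ∑ r ∈ Wr F R, ∑ y, ψ (L (wp r ^ k * D y))

lemma FD_sq {ψ : AddChar F ℂ} (hψ : ψ ≠ 1) (L : F[X] →ₗ[F] F) (k R : ℕ) {b : ℕ}
    {Y : Type*} [Fintype Y] (D : Y → F[X]) (hD : ∀ y, D y ∈ degreeLT F b) :
    ‖FD ψ L k R D‖ ^ 2
      ≤ (coll D : ℝ) * ((Fintype.card F : ℝ) ^ b * ((prs L k R b).card : ℝ)) := by
  have h1 : FD ψ L k R D = ∑ y, gs ψ L k R (D y) := by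
    unfold FD
    rw [Finset.sum_comm]
    rfl
  let v : Y → degreeLT F b := fun y => ⟨D y, hD y⟩
  have h2 : coll v = coll D := by
    unfold coll
    apply Nat.card_congr
    exact Equiv.subtypeEquivRight (fun y => Subtype.ext_iff)
  have h3 := sq_sum_le v (fun m => ‖gs ψ L k R (m : F[X])‖)
  rw [sum_gs_sq hψ L k R b, h2] at h3
  refine le_trans ?_ h3
  apply pow_le_pow_left₀ (norm_nonneg _)
  rw [h1]
  exact norm_sum_le _ _

/-- The analysis for a fixed polynomial. -/
lemma per_m {ψ : AddChar F ℂ} (hψ : ψ ≠ 1) {k s : ℕ} (hk : 2 ≤ k) (hkF : (k : F) ≠ 0)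
    {P : ℕ} (hP : 1 ≤ P) {c : Fin s → F} {i₀ : Fin s} (hi₀ : c i₀ ≠ 0) {m : F[X]}
    (hA : ∀ d, ‖Ad ψ k (fun _ : Fin s => (1 : F[X])) m d‖ ≤ 1 / 16 ^ d)
    (hm : m ∈ degreeLT F (k * P + 1)) (hc : ∑ i, c i ^ k = m.coeff (k * P)) :
    ‖((((Fintype.card F : ℝ) ^ P) ^ s : ℝ) : ℂ)
      - (((Fintype.card F : ℝ) ^ (k * P) * (ZZ k c P m : ℝ) : ℝ) : ℂ) + SM ψ k c P m‖
      ≤ ((Fintype.card F : ℝ) ^ P) ^ s / 15 := by
  have H := hyp_of hk hP hm hc
  have I := inf_of (P := P) hk hi₀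
  have h1 := sum_all hψ (EP k c P m) H.hE
  rw [sum_splitN (k * P) ((k - 1) * P) P, Finset.sum_range_succ',
    sum_DN_zero hψ (EP k c P m) H.hE] at h1
  set q : ℝ := (Fintype.card F : ℝ) with hq
  have hq0 : 0 < q := by rw [hq]; exact_mod_cast Fintype.card_pos
  set S1 := ∑ d ∈ Finset.range P, ∑ α ∈ DN F (k * P) ((k - 1) * P) (d + 1),
    ∑ y, ψ (lin α (EP k c P m y)) with hS1
  have hQQ : (QQ F (fun _ : Fin s => P) : ℝ) = (q ^ P) ^ s := by
    unfold QQ
    rw [Finset.prod_const, Finset.card_univ, Fintype.card_fin]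
    push_cast
    rfl
  have hPP : P ≤ (k - 1) * P := Nat.le_mul_of_pos_left _ (by omega)
  have h3 : ‖S1‖ ≤ (q ^ P) ^ s / 15 := by
    refine le_trans (norm_sum_le _ _) ?_
    have h4 : ∀ d ∈ Finset.range P,
        ‖∑ α ∈ DN F (k * P) ((k - 1) * P) (d + 1), ∑ y, ψ (lin α (EP k c P m y))‖
        ≤ (q ^ P) ^ s * (1 / 16 ^ (d + 1)) := by
      intro d hd
      have hd' := Finset.mem_range.1 hd
      have h5 := level_exact hψ H (m := m) (by unfold cc; simp only [one_mul]) (by omega) hkF I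
        (d := d + 1) (by omega) (by omega)
      unfold EP
      rw [h5, norm_mul]
      have h6 : ‖(QQ F (fun _ : Fin s => P) : ℂ)‖ = (q ^ P) ^ s := by
        rw [Complex.norm_natCast, hQQ]
      rw [h6]
      exact mul_le_mul_of_nonneg_left (hA (d + 1)) (by positivity)
    refine le_trans (Finset.sum_le_sum h4) ?_
    rw [← Finset.mul_sum]
    calc (q ^ P) ^ s * ∑ d ∈ Finset.range P, (1 : ℝ) / 16 ^ (d + 1)
        ≤ (q ^ P) ^ s * (1 / 15) := mul_le_mul_of_nonneg_left (geo16 P) (by positivity)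
      _ = _ := by ring
  have h0 : (q ^ (k * P - (k - 1) * P) * ((Finset.univ.filter
      (fun y => EP k c P m y ∈ degreeLT F ((k - 1) * P))).card : ℝ)) = (q ^ P) ^ s := by
    have h5 := card_Yd H (by omega) hkF I P 0 (by omega)
    have e1 : k * P - (k - 1) * P = P := by have := H.hM; omega
    rw [e1, ← hQQ, ← h5]
    unfold Yd EP
    push_cast
    rw [mul_comm]
    rfl
  have h7 : ((((q ^ P) ^ s : ℝ) : ℂ) - ((q ^ (k * P) * (ZZ k c P m : ℝ) : ℝ) : ℂ)
      + SM ψ k c P m) = -S1 := by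
    have h1' : ((q ^ (k * P) * (ZZ k c P m : ℝ) : ℝ) : ℂ)
        = S1 + ((q ^ (k * P - (k - 1) * P) * ((Finset.univ.filter
          (fun y => EP k c P m y ∈ degreeLT F ((k - 1) * P))).card : ℝ) : ℝ) : ℂ)
          + SM ψ k c P m := by
      rw [hq]
      unfold ZZ SM
      push_cast
      exact h1.symm
    rw [h1', h0]
    ring
  rw [h7, norm_neg]
  exact h3

/-- The minor functionals with a block removed. -/
lemma SM_block {ψ : AddChar F ℂ} {k s P : ℕ} (c : Fin s → F) (m b : F[X]) :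
    SM ψ k c P (m - b) = ∑ α ∈ MN F (k * P) ((k - 1) * P) P,
        ψ (-(lin α m)) * ((∏ i, S0 ψ (lin α) k c P i) * ψ (lin α b)) := by
  unfold SM
  apply Finset.sum_congr rfl
  intro α _
  unfold S0
  rw [DG.sum_prod_dep (n := fun _ : Fin s => P)
    (fun i (y : degreeLT F P) => ψ (lin α ((bb c P i + (y : F[X])) ^ k))),
    Finset.sum_mul, Finset.mul_sum]
  apply Finset.sum_congr rfl
  intro y _
  have e1 : ∏ i, ψ (lin α ((bb c P i + (y i : F[X])) ^ k))
      = ψ (lin α (∑ i, (bb c P i + (y i : F[X])) ^ k)) := by rw [map_sum, char_sum]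
  rw [e1, EP_eq, ← AddChar.map_add_eq_mul, ← AddChar.map_add_eq_mul, ← map_neg,
    ← map_add, ← map_add]
  congr 2
  ring

lemma S0_prod_le (ψ : AddChar F ℂ) (L : F[X] →ₗ[F] F) (k : ℕ) {s : ℕ} (c : Fin s → F) (P : ℕ) :
    ∏ i, ‖S0 ψ L k c P i‖ ≤ ((Fintype.card F : ℝ) ^ P) ^ s := by
  have h1 : ∀ i : Fin s, ‖S0 ψ L k c P i‖ ≤ (Fintype.card F : ℝ) ^ P := by
    intro i
    unfold S0
    refine le_trans (norm_sum_le _ _) ?_
    rw [Finset.sum_congr rfl (fun y _ => AddChar.norm_apply ψ _), Finset.sum_const,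
      Finset.card_univ, card_V, nsmul_eq_mul, mul_one]
    push_cast
    rfl
  calc ∏ i, ‖S0 ψ L k c P i‖ ≤ ∏ _i : Fin s, (Fintype.card F : ℝ) ^ P :=
        Finset.prod_le_prod (fun _ _ => norm_nonneg _) (fun i _ => h1 i)
    _ = _ := by rw [Finset.prod_const, Finset.card_univ, Fintype.card_fin]

end Pool.Agent.H598.LB
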