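import Pool.Agent.H598.LB.Final

/-!
# Forms of the condition
-/

namespace Pool.Agent.H598.LB

open Finset Polynomial Pool.Agent.H598.FQ

universe v

/-- The condition in terms of logarithms. -/
theorem cond_log {k L q : ℕ} (hk : 2 ≤ k) (hq1 : 1 ≤ q)
    (h : 6 * (k : ℝ) * Real.log (2 * k) ≤ Real.exp L * Real.log q) :
    (2 * k) ^ (6 * k * (k - 1) ^ (L * k)) ≤ q ^ (k ^ (L * k)) := by
  have hk0 : (0 : ℝ) < k := by exact_mod_cast (show 0 < k by omega)
  have hqR : (1 : ℝ) ≤ q := by exact_mod_cast hq1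
  have hlq : 0 ≤ Real.log q := Real.log_nonneg hqR
  -- the ratio
  have h1 : Real.exp L * ((k - 1 : ℕ) : ℝ) ^ (L * k) ≤ (k : ℝ) ^ (L * k) := by
    have h2 := Real.one_sub_div_pow_le_exp_neg (n := k) (t := 1) (by
      exact_mod_cast (show 1 ≤ k by omega))
    have h3 : (1 - 1 / (k : ℝ)) = ((k - 1 : ℕ) : ℝ) / k := by
      rw [Nat.cast_sub (by omega)]
      field_simp
      push_cast
      ring
    rw [h3, div_pow] at h2
    have h4 : ((k - 1 : ℕ) : ℝ) ^ k * Real.exp 1 ≤ (k : ℝ) ^ k := by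
      rw [div_le_iff₀ (by positivity), Real.exp_neg] at h2
      have h5 : 0 < Real.exp 1 := Real.exp_pos 1
      calc ((k - 1 : ℕ) : ℝ) ^ k * Real.exp 1 ≤ ((Real.exp 1)⁻¹ * (k : ℝ) ^ k) * Real.exp 1 :=
            mul_le_mul_of_nonneg_right h2 h5.le
        _ = (k : ℝ) ^ k := by field_simp
    calc Real.exp L * ((k - 1 : ℕ) : ℝ) ^ (L * k)
        = (((k - 1 : ℕ) : ℝ) ^ k * Real.exp 1) ^ L := by
          rw [mul_pow, ← pow_mul, ← Real.exp_nat_mul, mul_one, mul_comm k L, mul_comm]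
      _ ≤ ((k : ℝ) ^ k) ^ L := pow_le_pow_left₀ (by positivity) h4 L
      _ = (k : ℝ) ^ (L * k) := by rw [← pow_mul, mul_comm k L]
  have h6 : Real.log (((2 * k) ^ (6 * k * (k - 1) ^ (L * k)) : ℕ) : ℝ)
      ≤ Real.log ((q ^ (k ^ (L * k)) : ℕ) : ℝ) := by
    push_cast
    rw [Real.log_pow, Real.log_pow]
    push_cast
    calc 6 * (k : ℝ) * ((k - 1 : ℕ) : ℝ) ^ (L * k) * Real.log (2 * k)
        = (6 * (k : ℝ) * Real.log (2 * k)) * ((k - 1 : ℕ) : ℝ) ^ (L * k) := by ring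
      _ ≤ (Real.exp L * Real.log q) * ((k - 1 : ℕ) : ℝ) ^ (L * k) :=
          mul_le_mul_of_nonneg_right h (by positivity)
      _ = (Real.exp L * ((k - 1 : ℕ) : ℝ) ^ (L * k)) * Real.log q := by ring
      _ ≤ (k : ℝ) ^ (L * k) * Real.log q := mul_le_mul_of_nonneg_right h1 hlq
  have h7 : (((2 * k) ^ (6 * k * (k - 1) ^ (L * k)) : ℕ) : ℝ)
      ≤ ((q ^ (k ^ (L * k)) : ℕ) : ℝ) := by
    refine (Real.log_le_log_iff ?_ ?_).1 h6
    · have : 0 < (2 * k) ^ (6 * k * (k - 1) ^ (L * k)) := by positivity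
      exact_mod_cast this
    · have : 0 < q ^ (k ^ (L * k)) := by positivity
      exact_mod_cast this
  exact_mod_cast h7

/-- The value of the exponential function at `30`. -/
lemma exp_thirty : (10 : ℝ) ^ 13 ≤ Real.exp (30 : ℕ) := by
  have h1 : (2.718 : ℝ) ≤ Real.exp 1 := by
    have := Real.exp_one_gt_d9
    linarith
  calc (10 : ℝ) ^ 13 ≤ (2.718 : ℝ) ^ 30 := by norm_num
    _ ≤ (Real.exp 1) ^ 30 := pow_le_pow_left₀ (by norm_num) h1 30
    _ = Real.exp (30 : ℕ) := by rw [← Real.exp_nat_mul, mul_one]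

/-- Small exponents. -/
lemma small_exp {k q : ℕ} (hk : 2 ≤ k) (hk13 : k ≤ 10 ^ 13) (hq : 128 * k ^ 6 ≤ q) :
    6 * (k : ℝ) * Real.log (2 * k) ≤ 10 ^ 13 * Real.log q := by
  have hk0 : (0 : ℝ) < k := by exact_mod_cast (show 0 < k by omega)
  have h1 : 6 * Real.log (2 * k) ≤ Real.log q := by
    have h2 : Real.log ((2 * k : ℝ) ^ 6) ≤ Real.log q := by
      apply Real.log_le_log (by positivity)
      have h3 : (2 * k) ^ 6 ≤ q := by
        refine le_trans ?_ hq
        rw [mul_pow]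
        apply Nat.mul_le_mul_right
        norm_num
      exact_mod_cast h3
    rw [Real.log_pow] at h2
    exact_mod_cast h2
  have h4 : (k : ℝ) ≤ 10 ^ 13 := by exact_mod_cast hk13
  have h5 : 0 ≤ Real.log (2 * k) := by
    apply Real.log_nonneg
    have : (1 : ℝ) ≤ k := by exact_mod_cast (show 1 ≤ k by omega)
    linarith
  calc 6 * (k : ℝ) * Real.log (2 * k) = (k : ℝ) * (6 * Real.log (2 * k)) := by ring
    _ ≤ 10 ^ 13 * (6 * Real.log (2 * k)) := mul_le_mul_of_nonneg_right h4 (by positivity)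
    _ ≤ 10 ^ 13 * Real.log q := mul_le_mul_of_nonneg_left h1 (by positivity)

/-- Linear bounds. -/
lemma delta_exp {δ : ℝ} (hδ : 0 < δ) : ∃ L : ℕ, ∀ k q : ℕ, 2 ≤ k →
    δ * (k : ℝ) * Real.log k ≤ Real.log q →
    6 * (k : ℝ) * Real.log (2 * k) ≤ Real.exp L * Real.log q := by
  obtain ⟨L, hL⟩ := exists_nat_ge (12 / δ)
  refine ⟨L, fun k q hk h => ?_⟩
  have hk0 : (0 : ℝ) < k := by exact_mod_cast (show 0 < k by omega)
  have h1 : Real.log (2 * k) ≤ 2 * Real.log k := by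
    rw [Real.log_mul (by norm_num) hk0.ne', two_mul]
    have : Real.log 2 ≤ Real.log k :=
      Real.log_le_log (by norm_num) (by exact_mod_cast hk)
    linarith
  have h2 : 12 / δ ≤ Real.exp L := by
    have := Real.add_one_le_exp (L : ℝ)
    linarith
  have h3 : 0 ≤ Real.log k := Real.log_nonneg (by exact_mod_cast (show 1 ≤ k by omega))
  calc 6 * (k : ℝ) * Real.log (2 * k) ≤ 6 * (k : ℝ) * (2 * Real.log k) :=
        mul_le_mul_of_nonneg_left h1 (by positivity)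
    _ = (12 / δ) * (δ * (k : ℝ) * Real.log k) := by field_simp; ring
    _ ≤ (12 / δ) * Real.log q := mul_le_mul_of_nonneg_left h (by positivity)
    _ ≤ Real.exp L * Real.log q := by
        apply mul_le_mul_of_nonneg_right h2
        exact le_trans (by positivity) h

end Pool.Agent.H598.LB
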