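import Mathlib

/-!
# The numerical condition
-/

namespace Pool.Agent.H598.LB

open Finset Filter

/-- Exponentials beat polynomials. -/
lemma exists_large_poly (C K : ℕ) {a b : ℕ} (ha : 1 ≤ a) (hab : a < b) :
    ∃ R₀ : ℕ, ∀ R, R₀ ≤ R → C * (2 * R) ^ K * a ^ R ≤ b ^ R := by
  have hb : (0 : ℝ) < b := by exact_mod_cast (show 0 < b by omega)
  have haR : (0 : ℝ) < a := by exact_mod_cast (show 0 < a by omega)
  have hr : |(a : ℝ) / b| < 1 := by
    rw [abs_of_pos (div_pos haR hb), div_lt_one hb]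
    exact_mod_cast hab
  have h1 := tendsto_pow_const_mul_const_pow_of_abs_lt_one K hr
  have hpos : (0 : ℝ) < 1 / ((C : ℝ) * 2 ^ K + 1) := by positivity
  have h2 := h1.eventually (gt_mem_nhds hpos)
  obtain ⟨R₀, hR₀⟩ := eventually_atTop.1 h2
  refine ⟨R₀, fun R hR => ?_⟩
  have h3 := hR₀ R hR
  have h4 : ((C * (2 * R) ^ K * a ^ R : ℕ) : ℝ) ≤ ((b ^ R : ℕ) : ℝ) := by
    push_cast
    rw [div_pow, ← mul_div_assoc, div_lt_div_iff₀ (by positivity) (by positivity)] at h3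
    have h5 : (0 : ℝ) ≤ (R : ℝ) ^ K * (a : ℝ) ^ R := by positivity
    have h6 : (C : ℝ) * (2 * R) ^ K * (a : ℝ) ^ R
        = (R : ℝ) ^ K * (a : ℝ) ^ R * (C * 2 ^ K) := by rw [mul_pow]; ring
    rw [h6]
    nlinarith
  exact_mod_cast h4

/-- The numerical condition holds for large `R`. -/
lemma exists_num {q k κ K C₀ : ℕ} (hk : 2 ≤ k) (hκ : 1 ≤ κ) (hK : 1 ≤ K)
    (hq : (2 * k) ^ (6 * k * κ) ≤ q ^ K) :
    ∃ R₀ : ℕ, ∀ R, R₀ ≤ R → ∀ S W : ℕ, K * S ≤ 5 * R + 6 * K → q ^ R ≤ 2 * R * W →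
      16 * (2 * k) ^ (k * κ * S) * (1 + k ^ (q ^ (k ^ 2 * K) + k * R / (k ^ 2 * K))) * q ^ C₀
        ≤ W := by
  set E := k ^ 2 * K with hE
  have hE0 : 0 < E := by positivity
  set C₁ := 16 ^ K * (2 * k) ^ (6 * k * κ * K) * 2 ^ K * k ^ (K * q ^ E) * (q ^ C₀) ^ K with hC₁
  have hkκ : 2 ≤ k * κ := by
    calc 2 ≤ k * 1 := by omega
      _ ≤ k * κ := Nat.mul_le_mul_left _ hκ
  have hβ : 2 < (2 * k) ^ (k * κ) := by
    calc 2 < 4 ^ 2 := by norm_num
      _ ≤ (2 * k) ^ 2 := Nat.pow_le_pow_left (by omega) 2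
      _ ≤ (2 * k) ^ (k * κ) := Nat.pow_le_pow_right (by omega) hkκ
  obtain ⟨R₀, hR₀⟩ := exists_large_poly C₁ K (by norm_num : 1 ≤ 2) hβ
  refine ⟨R₀ + 1, fun R hR S W hS hW => ?_⟩
  have h1 := hR₀ R (by omega)
  have hkR : k ^ (K * (k * R / E)) ≤ 2 ^ R := by
    have h2 : k * K * (k * R / E) ≤ R := by
      have h3 : k * R / E * E ≤ k * R := Nat.div_mul_le_self _ _
      have h4 : k * (k * K * (k * R / E)) ≤ k * R := by
        calc k * (k * K * (k * R / E)) = k * R / E * E := by rw [hE]; ring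
          _ ≤ k * R := h3
      exact Nat.le_of_mul_le_mul_left h4 (by omega)
    calc k ^ (K * (k * R / E)) ≤ (2 ^ k) ^ (K * (k * R / E)) :=
          Nat.pow_le_pow_left (Nat.lt_two_pow_self).le _
      _ = 2 ^ (k * K * (k * R / E)) := by rw [← pow_mul, mul_assoc]
      _ ≤ 2 ^ R := Nat.pow_le_pow_right (by norm_num) h2
  have hω : (1 + k ^ (q ^ E + k * R / E)) ^ K ≤ 2 ^ K * k ^ (K * q ^ E) * 2 ^ R := by
    have h3 : 1 ≤ k ^ (q ^ E + k * R / E) := Nat.one_le_pow _ _ (by omega)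
    calc (1 + k ^ (q ^ E + k * R / E)) ^ K ≤ (2 * k ^ (q ^ E + k * R / E)) ^ K :=
          Nat.pow_le_pow_left (by omega) K
      _ = 2 ^ K * (k ^ (K * q ^ E) * k ^ (K * (k * R / E))) := by
          rw [mul_pow, ← pow_mul, ← pow_add]
          congr 2
          ring
      _ ≤ 2 ^ K * (k ^ (K * q ^ E) * 2 ^ R) := by
          apply Nat.mul_le_mul_left
          exact Nat.mul_le_mul_left _ hkR
      _ = _ := by ring
  have hS2 : ((2 * k) ^ (k * κ * S)) ^ K ≤ (2 * k) ^ (5 * (k * κ) * R) * (2 * k) ^ (6 * k * κ * K) := by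
    rw [← pow_mul, ← pow_add]
    apply Nat.pow_le_pow_right (by omega)
    calc k * κ * S * K = k * κ * (K * S) := by ring
      _ ≤ k * κ * (5 * R + 6 * K) := Nat.mul_le_mul_left _ hS
      _ = 5 * (k * κ) * R + 6 * k * κ * K := by ring
  have hRpos : 0 < (2 * R) ^ K := by
    have : 0 < 2 * R := by omega
    positivity
  have hfin : (16 * (2 * k) ^ (k * κ * S) * (1 + k ^ (q ^ E + k * R / E)) * q ^ C₀) ^ K
      ≤ W ^ K := by
    apply Nat.le_of_mul_le_mul_right _ hRpos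
    calc (16 * (2 * k) ^ (k * κ * S) * (1 + k ^ (q ^ E + k * R / E)) * q ^ C₀) ^ K * (2 * R) ^ K
        = 16 ^ K * ((2 * k) ^ (k * κ * S)) ^ K * (1 + k ^ (q ^ E + k * R / E)) ^ K
          * (q ^ C₀) ^ K * (2 * R) ^ K := by rw [mul_pow, mul_pow, mul_pow]
      _ ≤ 16 ^ K * ((2 * k) ^ (5 * (k * κ) * R) * (2 * k) ^ (6 * k * κ * K))
          * (2 ^ K * k ^ (K * q ^ E) * 2 ^ R) * (q ^ C₀) ^ K * (2 * R) ^ K := by
          apply Nat.mul_le_mul_right
          apply Nat.mul_le_mul_right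
          exact Nat.mul_le_mul (Nat.mul_le_mul_left _ hS2) hω
      _ = (C₁ * (2 * R) ^ K * 2 ^ R) * (2 * k) ^ (5 * (k * κ) * R) := by rw [hC₁]; ring
      _ ≤ ((2 * k) ^ (k * κ)) ^ R * (2 * k) ^ (5 * (k * κ) * R) := Nat.mul_le_mul_right _ h1
      _ = ((2 * k) ^ (6 * k * κ)) ^ R := by
          rw [← pow_mul, ← pow_mul, ← pow_add]
          congr 1
          ring
      _ ≤ (q ^ K) ^ R := Nat.pow_le_pow_left hq R
      _ = (q ^ R) ^ K := by rw [← pow_mul, ← pow_mul, mul_comm]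
      _ ≤ (2 * R * W) ^ K := Nat.pow_le_pow_left hW K
      _ = W ^ K * (2 * R) ^ K := by rw [mul_pow, mul_comm]
  exact le_of_pow_le_pow_left₀ (by omega) (Nat.zero_le _) hfin

end Pool.Agent.H598.LB
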