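import Pool.Agent.H598.LB.Sup
import Pool.Agent.H598.TK.Kspace

/-!
# Diminishing ranges
-/

namespace Pool.Agent.H598.LB

open Finset Polynomial Pool.Agent.H598.FQ
open Pool.Agent.H598.DG (sg sg_ne)
open Pool.Agent.H598.TK (natDegree_pow_sub wp wp_monic wp_natDegree wp_inj)
open scoped Classical

universe v

variable {F : Type v} [Field F] [Fintype F]

/-- The number of pairs in the basic system. -/
lemma coll_base {k n : ℕ} (hk : 0 < k) (hch : ∀ a, a ≤ k → ((k.choose a : ℕ) : F) ≠ 0) :
    coll (fun y : Fin k → degreeLT F (n + 1) => ∑ i, (y i : F[X]) ^ k) ≤ JB F k n := by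
  refine le_trans ?_ (count_V (P := n) hk hch (sg F k) (sg_ne k) 0)
  let Φ : {y : (Fin k → degreeLT F (n + 1)) × (Fin k → degreeLT F (n + 1)) //
      ∑ i, (y.1 i : F[X]) ^ k = ∑ i, (y.2 i : F[X]) ^ k} →
      {x : Fin (2 * k) → degreeLT F (n + 1) // ∑ i, C (sg F k i) * (x i : F[X]) ^ k = 0} :=
    fun y => ⟨fun i => Fin.append y.1.1 y.1.2 (Fin.cast (two_mul k) i), by
      have h1 := Equiv.sum_comp (finCongr (two_mul k).symm)
        (fun i : Fin (2 * k) => C (sg F k i) *
          ((Fin.append y.1.1 y.1.2 (Fin.cast (two_mul k) i) : degreeLT F (n + 1)) : F[X]) ^ k)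
      rw [← h1, Fin.sum_univ_add]
      have h2 : ∀ i : Fin k, C (sg F k (finCongr (two_mul k).symm (Fin.castAdd k i))) *
          ((Fin.append y.1.1 y.1.2 (Fin.cast (two_mul k) (finCongr (two_mul k).symm
            (Fin.castAdd k i))) : degreeLT F (n + 1)) : F[X]) ^ k = (y.1.1 i : F[X]) ^ k := by
        intro i
        have e1 : Fin.cast (two_mul k) (finCongr (two_mul k).symm (Fin.castAdd k i))
            = Fin.castAdd k i := rfl
        have e2 : sg F k (finCongr (two_mul k).symm (Fin.castAdd k i)) = 1 := by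
          unfold sg
          rw [if_pos]
          exact i.2
        rw [e1, Fin.append_left, e2, C_1, one_mul]
      have h3 : ∀ i : Fin k, C (sg F k (finCongr (two_mul k).symm (Fin.natAdd k i))) *
          ((Fin.append y.1.1 y.1.2 (Fin.cast (two_mul k) (finCongr (two_mul k).symm
            (Fin.natAdd k i))) : degreeLT F (n + 1)) : F[X]) ^ k = -(y.1.2 i : F[X]) ^ k := by
        intro i
        have e1 : Fin.cast (two_mul k) (finCongr (two_mul k).symm (Fin.natAdd k i))
            = Fin.natAdd k i := rfl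
        have e2 : sg F k (finCongr (two_mul k).symm (Fin.natAdd k i)) = -1 := by
          unfold sg
          rw [if_neg]
          change ¬ (k + (i : ℕ) < k)
          omega
        rw [e1, Fin.append_right, e2, C_neg, C_1, neg_one_mul]
      rw [Finset.sum_congr rfl (fun i _ => h2 i), Finset.sum_congr rfl (fun i _ => h3 i),
        Finset.sum_neg_distrib, y.2, add_neg_cancel]⟩
  have hΦ : Function.Injective Φ := by
    rintro ⟨⟨a, b⟩, h⟩ ⟨⟨a', b'⟩, h'⟩ heq
    have h1 := congrArg Subtype.val heq
    simp only [Φ] at h1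
    have h2 : ∀ i : Fin (2 * k), Fin.append a b (Fin.cast (two_mul k) i)
        = Fin.append a' b' (Fin.cast (two_mul k) i) := fun i => congrFun h1 i
    have h3 : a = a' := by
      funext i
      have := h2 (Fin.cast (two_mul k).symm (Fin.castAdd k i))
      rw [show Fin.cast (two_mul k) (Fin.cast (two_mul k).symm (Fin.castAdd k i))
        = Fin.castAdd k i from rfl, Fin.append_left, Fin.append_left] at this
      exact this
    have h4 : b = b' := by
      funext i
      have := h2 (Fin.cast (two_mul k).symm (Fin.natAdd k i))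
      rw [show Fin.cast (two_mul k) (Fin.cast (two_mul k).symm (Fin.natAdd k i))
        = Fin.natAdd k i from rfl, Fin.append_right, Fin.append_right] at this
      exact this
    subst h3 h4
    rfl
  unfold coll
  exact Nat.card_le_card_of_injective Φ hΦ

/-- Systems with diminishing ranges. -/
theorem exists_sys {k : ℕ} (hk : 2 ≤ k) (hch : ∀ a, a ≤ k → ((k.choose a : ℕ) : F) ≠ 0) :
    ∀ (ℓ T : ℕ), 1 ≤ T → ∃ (Y : Type v) (_ : Fintype Y) (D : Y → F[X]),
      (∀ y, (D y).natDegree ≤ k * (k ^ ℓ * T - 1)) ∧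
      (∀ y, ∃ x : Fin (k + ℓ) → F[X], (∀ i, x i ∈ degreeLT F (k ^ ℓ * T)) ∧
        ∑ i, x i ^ k = D y) ∧
      Fintype.card Y * Fintype.card F ^ ℓ = Fintype.card F ^ (k * (k ^ ℓ * T)) ∧
      coll D ≤ Fintype.card Y *
        ((2 * k) ^ (k * ((k - 1) ^ ℓ * T - 1) + 1) * Fintype.card F ^ (k - 1)) := by
  have hkF : (k : F) ≠ 0 := by
    have := hch 1 (by omega)
    rwa [Nat.choose_one_right] at this
  intro ℓ
  induction ℓ with
  | zero =>
    intro T hT
    obtain ⟨n, rfl⟩ : ∃ n, T = n + 1 := ⟨T - 1, by omega⟩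
    refine ⟨Fin k → degreeLT F (n + 1), inferInstance, fun y => ∑ i, (y i : F[X]) ^ k,
      ?_, ?_, ?_, ?_⟩
    · intro y
      rw [pow_zero, one_mul, Nat.add_sub_cancel]
      rw [← mem_V_succ_iff]
      apply Submodule.sum_mem
      intro i _
      exact pow_mem_V (y i).2
    · intro y
      refine ⟨fun i => (y i : F[X]), fun i => ?_, rfl⟩
      rw [pow_zero, one_mul]
      exact (y i).2
    · rw [Fintype.card_fun, card_V, Fintype.card_fin, pow_zero, mul_one, pow_zero, one_mul,
        ← pow_mul, mul_comm]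
    · refine le_trans (coll_base (by omega) hch) (le_of_eq ?_)
      unfold JB
      rw [Fintype.card_fun, card_V, Fintype.card_fin, pow_zero, one_mul, Nat.add_sub_cancel,
        ← pow_mul]
      have e : 2 * k * (n + 1) - (k * n + 1) = (n + 1) * k + (k - 1) := by
        obtain ⟨k', rfl⟩ : ∃ k', k = k' + 1 := ⟨k - 1, by omega⟩
        have e1 : 2 * (k' + 1) * (n + 1) = ((k' + 1) * n + 1) + ((n + 1) * (k' + 1) + k') := by
          ring
        rw [e1, Nat.add_sub_cancel_left, Nat.add_sub_cancel]
      rw [e, pow_add]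
      ring
  | succ ℓ ih =>
    intro T hT
    obtain ⟨Y, hY, D, hD1, hD2, hD3, hD4⟩ := ih ((k - 1) * T) (Nat.mul_pos (by omega) hT)
    set n' := k ^ ℓ * ((k - 1) * T) with hn'
    set n := k ^ (ℓ + 1) * T with hn
    have hKT : 1 ≤ k ^ ℓ * T := Nat.mul_pos (by positivity) hT
    have hnn : n = n' + k ^ ℓ * T := by
      rw [hn, hn']
      obtain ⟨k', rfl⟩ : ∃ k', k = k' + 1 := ⟨k - 1, by omega⟩
      simp only [Nat.add_sub_cancel]
      rw [pow_succ]; ring
    have hnk : n' = (k - 1) * (k ^ ℓ * T) := by rw [hn']; ring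
    have hnn2 : n = k * (k ^ ℓ * T) := by rw [hn, pow_succ]; ring
    have hn'1 : 1 ≤ n' := by
      rw [hnk]; exact Nat.mul_pos (by omega) hKT
    let D' : degreeLT F (n - 1) × Y → F[X] := fun zy => wp zy.1 ^ k + D zy.2
    have hn1 : n - 1 + 1 = n := by omega
    refine ⟨degreeLT F (n - 1) × Y, inferInstance, D', ?_, ?_, ?_, ?_⟩
    · rintro ⟨z, y⟩
      apply natDegree_add_le_of_degree_le
      · refine le_trans natDegree_pow_le ?_
        rw [wp_natDegree]
      · refine le_trans (hD1 y) (Nat.mul_le_mul_left _ (by omega))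
    · rintro ⟨z, y⟩
      obtain ⟨x, hx1, hx2⟩ := hD2 y
      refine ⟨(Fin.cons (wp z) x : Fin (k + ℓ + 1) → F[X]), ?_, ?_⟩
      · intro i
        refine Fin.cases ?_ (fun j => ?_) i
        · change wp z ∈ degreeLT F n
          have h1 : wp z ∈ degreeLT F (n - 1 + 1) := mem_V_succ_iff.2 (wp_natDegree z).le
          exact V_mono hn1.le h1
        · change x j ∈ degreeLT F n
          exact V_mono (by omega) (hx1 j)
      · change ∑ i : Fin (k + ℓ + 1), (Fin.cons (wp z) x : Fin (k + ℓ + 1) → F[X]) i ^ k = _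
        rw [Fin.sum_univ_succ]
        simp only [Fin.cons_zero, Fin.cons_succ]
        rw [hx2]
    · rw [Fintype.card_prod, card_V]
      have e1 : Fintype.card F ^ (k * n) = Fintype.card F ^ (n - 1)
          * (Fintype.card Y * Fintype.card F ^ ℓ) * Fintype.card F := by
        rw [hD3, ← pow_add, ← pow_succ]
        congr 1
        have e2 : n - 1 + k * n' + 1 = n + k * n' := by omega
        rw [e2, hnk, hnn2]
        obtain ⟨k', rfl⟩ : ∃ k', k = k' + 1 := ⟨k - 1, by omega⟩
        simp only [Nat.add_sub_cancel]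
        ring
      rw [e1, pow_succ]
      ring
    · -- the pairs
      have hinj : coll D' ≤ Fintype.card F ^ (n - 1) * coll D := by
        have key : ∀ (z w : degreeLT F (n - 1)) (y y' : Y),
            wp z ^ k + D y = wp w ^ k + D y' → z = w ∧ D y = D y' := by
          intro z w y y' h
          have hzw : z = w := by
            by_contra hne
            have hne' : wp z ≠ wp w := fun h => hne (wp_inj h)
            have h1 := natDegree_pow_sub (k := k) (by omega) hkF (wp_monic z) (wp_monic w)
              (wp_natDegree z) (wp_natDegree w) hne'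
            have h2 : wp z ^ k - wp w ^ k = D y' - D y := by linear_combination h
            have h3 : (D y' - D y).natDegree ≤ k * (n' - 1) := by
              refine le_trans (natDegree_sub_le _ _) (max_le (hD1 y') (hD1 y))
            rw [h2] at h1
            have h4 : k * (n' - 1) < (k - 1) * (n - 1) := by
              have e1 : k * n' = (k - 1) * n := by
                rw [hnk, hnn2]; ring
              have e2 : k * (n' - 1) = k * n' - k := by rw [Nat.mul_sub, mul_one]
              have e3 : (k - 1) * (n - 1) = (k - 1) * n - (k - 1) := by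
                rw [Nat.mul_sub, mul_one]
              have e4 : k ≤ k * n' := Nat.le_mul_of_pos_right _ hn'1
              omega
            omega
          subst hzw
          exact ⟨rfl, add_left_cancel h⟩
        have hcard : Fintype.card F ^ (n - 1) * coll D
            = Nat.card (degreeLT F (n - 1) × {y : Y × Y // D y.1 = D y.2}) := by
          rw [Nat.card_prod, Nat.card_eq_fintype_card (α := degreeLT F (n - 1)), card_V]
          rfl
        rw [hcard]
        unfold coll
        let Ψ : {x : (degreeLT F (n - 1) × Y) × (degreeLT F (n - 1) × Y) // D' x.1 = D' x.2} →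
            degreeLT F (n - 1) × {y : Y × Y // D y.1 = D y.2} :=
          fun x => (x.1.1.1, ⟨(x.1.1.2, x.1.2.2), (key _ _ _ _ x.2).2⟩)
        have hΨ : Function.Injective Ψ := by
          rintro ⟨⟨⟨z, y⟩, ⟨w, y'⟩⟩, h⟩ ⟨⟨⟨z₂, y₂⟩, ⟨w₂, y₂'⟩⟩, h₂⟩ heq
          have h1 := (key _ _ _ _ h).1
          have h2 := (key _ _ _ _ h₂).1
          simp only [Ψ, Prod.mk.injEq, Subtype.mk.injEq] at heq
          simp only at h1 h2
          obtain ⟨ha, hb, hc⟩ := heq
          subst h1 h2 ha hb hc
          rfl
        exact Nat.card_le_card_of_injective Ψ hΨ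
      refine le_trans hinj ?_
      refine le_trans (Nat.mul_le_mul_left _ hD4) (le_of_eq ?_)
      rw [Fintype.card_prod, card_V]
      have e1 : (k - 1) ^ ℓ * ((k - 1) * T) = (k - 1) ^ (ℓ + 1) * T := by rw [pow_succ]; ring
      rw [e1, mul_assoc]

end Pool.Agent.H598.LB
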