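import Pool.Agent.H598.LB.Asm
import Pool.Agent.H598.LB.Sys
import Pool.Agent.H598.LB.Num
import Pool.Agent.H598.TK.Strict

/-!
# The linear bound
-/

namespace Pool.Agent.H598.LB

open Finset Polynomial Pool.Agent.H598.FQ
open Pool.Agent.H598.TK (wp wp_monic wp_natDegree pf Wr card_Wr bb EP EP_eq natDegree_bb ZZ
  top_coeff)
open scoped Classical

universe v

/-- The numerical condition in terms of the systems. -/
lemma num_sys {q k κ K ℓ T T' P n₀ W cY cY' cD cD' ω : ℕ} (hk : 2 ≤ k) (hκ : 1 ≤ κ)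
    (hq : 1 ≤ q) (hT : 1 ≤ T) (hT' : 1 ≤ T') (hn₀ : n₀ + 1 = K * T') (hPn : P ≤ K * T + K)
    (hY : cY * q ^ ℓ = q ^ (k * (K * T)))
    (hD : cD ≤ cY * ((2 * k) ^ (k * (κ * T - 1) + 1) * q ^ (k - 1)))
    (hY' : cY' * q ^ ℓ = q ^ (k * (K * T')))
    (hD' : cD' ≤ cY' * ((2 * k) ^ (k * (κ * T' - 1) + 1) * q ^ (k - 1)))
    (hnum : 16 * (2 * k) ^ (k * κ * (T' + 2 * T)) * (1 + k ^ ω) * q ^ (2 * k * K + 3 * ℓ + 2 * k)
      ≤ W) :
    16 * (cD' * (q ^ (k * n₀ + 1) * (W * (1 + k ^ ω)))) * (q ^ (k * P) * cD) ^ 2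
      ≤ (W * (cY' * cY ^ 2)) ^ 2 := by
  have hpow : ∀ S, 1 ≤ S → (2 * k) ^ (k * (κ * S - 1) + 1) ≤ (2 * k) ^ (k * κ * S) := by
    intro S hS
    apply Nat.pow_le_pow_right (by omega)
    have h1 : 1 ≤ κ * S := Nat.mul_pos hκ hS
    obtain ⟨e, he⟩ : ∃ e, κ * S = e + 1 := ⟨κ * S - 1, by omega⟩
    rw [mul_assoc, he, Nat.add_sub_cancel, mul_add, mul_one]
    omega
  have hD2 : cD ≤ cY * ((2 * k) ^ (k * κ * T) * q ^ (k - 1)) :=
    le_trans hD (Nat.mul_le_mul_left _ (Nat.mul_le_mul_right _ (hpow T hT)))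
  have hD2' : cD' ≤ cY' * ((2 * k) ^ (k * κ * T') * q ^ (k - 1)) :=
    le_trans hD' (Nat.mul_le_mul_left _ (Nat.mul_le_mul_right _ (hpow T' hT')))
  -- the key inequality
  have hkey : 16 * ((2 * k) ^ (k * κ * T') * q ^ (k - 1)) * q ^ (k * n₀ + 1) * (1 + k ^ ω)
      * (q ^ (k * P)) ^ 2 * ((2 * k) ^ (k * κ * T) * q ^ (k - 1)) ^ 2
      ≤ W * (cY' * cY ^ 2) := by
    have hq3 : 0 < q ^ (3 * ℓ) := by positivity
    apply Nat.le_of_mul_le_mul_right _ hq3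
    have e1 : W * (cY' * cY ^ 2) * q ^ (3 * ℓ) = W * q ^ (k * (K * T') + 2 * (k * (K * T))) := by
      have e2 : q ^ (3 * ℓ) = q ^ ℓ * (q ^ ℓ) ^ 2 := by rw [← pow_mul, ← pow_add]; congr 1; ring
      calc W * (cY' * cY ^ 2) * q ^ (3 * ℓ) = W * ((cY' * q ^ ℓ) * (cY * q ^ ℓ) ^ 2) := by
            rw [e2]; ring
        _ = _ := by rw [hY, hY', ← pow_mul, ← pow_add]; congr 3; ring
    rw [e1]
    have e3 : 16 * ((2 * k) ^ (k * κ * T') * q ^ (k - 1)) * q ^ (k * n₀ + 1) * (1 + k ^ ω)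
        * (q ^ (k * P)) ^ 2 * ((2 * k) ^ (k * κ * T) * q ^ (k - 1)) ^ 2 * q ^ (3 * ℓ)
        = 16 * (2 * k) ^ (k * κ * (T' + 2 * T)) * (1 + k ^ ω)
          * q ^ ((k - 1) + (k * n₀ + 1) + 2 * (k * P) + 2 * (k - 1) + 3 * ℓ) := by
      have e4 : (2 * k) ^ (k * κ * (T' + 2 * T))
          = (2 * k) ^ (k * κ * T') * ((2 * k) ^ (k * κ * T)) ^ 2 := by
        rw [← pow_mul, ← pow_add]; congr 1; ring
      have e5 : q ^ ((k - 1) + (k * n₀ + 1) + 2 * (k * P) + 2 * (k - 1) + 3 * ℓ)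
          = q ^ (k - 1) * q ^ (k * n₀ + 1) * (q ^ (k * P)) ^ 2 * (q ^ (k - 1)) ^ 2 * q ^ (3 * ℓ) := by
        rw [← pow_mul, ← pow_mul, ← pow_add, ← pow_add, ← pow_add, ← pow_add]
        congr 1; ring
      rw [e4, e5]; ring
    rw [e3]
    have e6 : (k - 1) + (k * n₀ + 1) + 2 * (k * P) + 2 * (k - 1) + 3 * ℓ
        ≤ (2 * k * K + 3 * ℓ + 2 * k) + (k * (K * T') + 2 * (k * (K * T))) := by
      have h1 : k * (K * T') = k * n₀ + k := by rw [← hn₀]; ring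
      have h2 : k * P ≤ k * (K * T + K) := Nat.mul_le_mul_left _ hPn
      have h3 : k * (K * T + K) = k * (K * T) + k * K := by ring
      have h4 : 2 * k * K = 2 * (k * K) := by ring
      omega
    calc 16 * (2 * k) ^ (k * κ * (T' + 2 * T)) * (1 + k ^ ω)
          * q ^ ((k - 1) + (k * n₀ + 1) + 2 * (k * P) + 2 * (k - 1) + 3 * ℓ)
        ≤ 16 * (2 * k) ^ (k * κ * (T' + 2 * T)) * (1 + k ^ ω)
          * q ^ ((2 * k * K + 3 * ℓ + 2 * k) + (k * (K * T') + 2 * (k * (K * T)))) :=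
          Nat.mul_le_mul_left _ (Nat.pow_le_pow_right hq e6)
      _ = (16 * (2 * k) ^ (k * κ * (T' + 2 * T)) * (1 + k ^ ω) * q ^ (2 * k * K + 3 * ℓ + 2 * k))
          * q ^ (k * (K * T') + 2 * (k * (K * T))) := by rw [pow_add]; ring
      _ ≤ W * q ^ (k * (K * T') + 2 * (k * (K * T))) := Nat.mul_le_mul_right _ hnum
  calc 16 * (cD' * (q ^ (k * n₀ + 1) * (W * (1 + k ^ ω)))) * (q ^ (k * P) * cD) ^ 2
      ≤ 16 * ((cY' * ((2 * k) ^ (k * κ * T') * q ^ (k - 1))) *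
        (q ^ (k * n₀ + 1) * (W * (1 + k ^ ω)))) *
        (q ^ (k * P) * (cY * ((2 * k) ^ (k * κ * T) * q ^ (k - 1)))) ^ 2 := by
        apply Nat.mul_le_mul
        · exact Nat.mul_le_mul_left _ (Nat.mul_le_mul_right _ hD2')
        · exact Nat.pow_le_pow_left (Nat.mul_le_mul_left _ hD2) 2
    _ = (W * (cY' * cY ^ 2)) * (16 * ((2 * k) ^ (k * κ * T') * q ^ (k - 1)) * q ^ (k * n₀ + 1)
          * (1 + k ^ ω) * (q ^ (k * P)) ^ 2 * ((2 * k) ^ (k * κ * T) * q ^ (k - 1)) ^ 2) := by ring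
    _ ≤ (W * (cY' * cY ^ 2)) * (W * (cY' * cY ^ 2)) := Nat.mul_le_mul_left _ hkey
    _ = _ := by ring

/-- **Sums of `9 k + 3 ℓ` `k`-th powers in `F_q[t]`.** -/
theorem rep_lin {F : Type v} [Field F] [Fintype F] {k ℓ : ℕ} (hk : 2 ≤ k)
    (hch : ∀ a, a ≤ k → ((k.choose a : ℕ) : F) ≠ 0) (hq : 128 * k ^ 6 ≤ Fintype.card F)
    (hqK : (2 * k) ^ (6 * k * (k - 1) ^ ℓ) ≤ Fintype.card F ^ (k ^ ℓ)) :
    ∃ P₀ : ℕ, ∀ P, P₀ ≤ P → ∀ m ∈ degreeLT F (k * P + 1),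
      ∃ x : Fin (9 * k + 3 * ℓ) → F[X], (∀ i, (x i).natDegree ≤ P) ∧ ∑ i, x i ^ k = m := by
  obtain ⟨ψ, hψ⟩ : ∃ ψ : AddChar F ℂ, ψ ≠ 1 := by
    obtain ⟨ψ, hψ⟩ := (AddChar.exists_apply_ne_zero (α := F) (a := 1)).2 one_ne_zero
    exact ⟨ψ, fun h => hψ (by rw [h]; rfl)⟩
  have hkF : (k : F) ≠ 0 := by
    have := hch 1 (by omega)
    rwa [Nat.choose_one_right] at this
  set q := Fintype.card F with hqdef
  have hk6 : 1 ≤ k ^ 6 := Nat.one_le_pow _ _ (by omega)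
  have hq1 : 1 ≤ q := by omega
  have hq8 : 8 * k ^ 4 ≤ q := by
    refine le_trans ?_ hq
    have h1 : k ^ 4 ≤ k ^ 6 := Nat.pow_le_pow_right (by omega) (by omega)
    omega
  set K := k ^ ℓ with hK
  set κ := (k - 1) ^ ℓ with hκ
  have hK1 : 1 ≤ K := Nat.one_le_pow _ _ (by omega)
  have hκ1 : 1 ≤ κ := Nat.one_le_pow _ _ (by omega)
  obtain ⟨R₀, hR₀⟩ := exists_num (C₀ := 2 * k * K + 3 * ℓ + 2 * k) hk hκ1 hK1 hqK
  refine ⟨2 * (R₀ + K + k + 4) + 2 * K, fun P hP m hm => ?_⟩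
  set T := P / K with hT
  set T' := P / (2 * K) + 1 with hT'
  have hKT : K * T ≤ P := Nat.mul_div_le _ _
  have hKT2 : P ≤ K * T + K := by
    have h1 := Nat.lt_div_mul_add (a := P) (b := K) (by omega)
    have e : K * T = P / K * K := by rw [hT, mul_comm]
    omega
  have h2K : 2 * (K * T') ≤ P + 2 * K := by
    have h1 : 2 * K * (P / (2 * K)) ≤ P := Nat.mul_div_le _ _
    rw [hT']
    have e : 2 * (K * (P / (2 * K) + 1)) = 2 * K * (P / (2 * K)) + 2 * K := by ring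
    omega
  have h2K2 : P < 2 * (K * T') := by
    have h1 := Nat.lt_div_mul_add (a := P) (b := 2 * K) (by omega)
    rw [hT']
    have e : 2 * (K * (P / (2 * K) + 1)) = P / (2 * K) * (2 * K) + 2 * K := by ring
    omega
  have hT1 : 1 ≤ T := by
    rw [hT, Nat.le_div_iff_mul_le (by omega)]
    omega
  have hT'1 : 1 ≤ T' := by rw [hT']; exact Nat.le_add_left 1 _
  set n' := K * T' with hn'
  have hn'k : k ≤ n' := by omega
  obtain ⟨n₀, hn₀⟩ : ∃ n₀, n₀ + 1 = n' := ⟨n' - 1, by omega⟩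
  set R := P - n' with hR
  have hRP : R + (n₀ + 1) = P := by omega
  have hRge : R₀ + k + 4 ≤ R := by omega
  have hRn : R + 1 ≤ n₀ + 1 := by omega
  obtain ⟨Y, hYf, D, hD1, hD2, hD3, hD4⟩ := exists_sys (F := F) hk hch ℓ T hT1
  obtain ⟨Y', hYf', D', hD1', hD2', hD3', hD4'⟩ := exists_sys (F := F) hk hch ℓ T' hT'1
  rw [← hK, ← hqdef] at hD3 hD3'
  rw [← hκ, ← hqdef] at hD4 hD4'
  have hYne : Nonempty Y := by
    rw [← Fintype.card_pos_iff]
    rcases Nat.eq_zero_or_pos (Fintype.card Y) with h | h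
    · rw [h, zero_mul] at hD3
      have : 0 < q ^ (k * (K * T)) := by positivity
      omega
    · exact h
  have hYne' : Nonempty Y' := by
    rw [← Fintype.card_pos_iff]
    rcases Nat.eq_zero_or_pos (Fintype.card Y') with h | h
    · rw [h, zero_mul] at hD3'
      have : 0 < q ^ (k * (K * T')) := by positivity
      omega
    · exact h
  set ω := q ^ (k ^ 2 * K) + k * R / (k ^ 2 * K) with hω
  have hωb : ∀ g : F[X], g ≠ 0 → g.natDegree ≤ k * R → (pf g).card ≤ ω := by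
    intro g hg hgd
    refine le_trans (card_pf_div hg (E := k ^ 2 * K) (by
      have : 0 < k ^ 2 * K := by positivity
      omega)) ?_
    rw [hω]
    exact Nat.add_le_add_left (Nat.div_le_div_right hgd) _
  have hnum := hR₀ R (by omega) (T' + 2 * T) (Wr F R).card (by
    have e : K * (T' + 2 * T) = K * T' + 2 * (K * T) := by ring
    rw [e]
    omega) (card_Wr (by omega))
  have hcond := num_sys hk hκ1 hq1 hT1 hT'1 (hn₀.trans hn') hKT2 hD3 hD4 hD3' hD4' hnum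
  obtain ⟨c, ⟨i₀, hi₀⟩, hc⟩ := top_coeff (K := F) (k := k) (s := 6 * k) (by omega) hq8
    (by omega) (m.coeff (k * P))
  have hDmem : ∀ y, D y ∈ degreeLT F (k * P) := by
    intro y
    have h1 := hD1 y
    rw [← hK] at h1
    have h2 : k * (K * T - 1) + 1 ≤ k * P := by
      have h3 : 1 ≤ K * T := Nat.mul_pos hK1 hT1
      obtain ⟨e, he⟩ : ∃ e, K * T = e + 1 := ⟨K * T - 1, by omega⟩
      rw [he, Nat.add_sub_cancel]
      have h4 : k * (e + 1) ≤ k * P := Nat.mul_le_mul_left _ (by omega)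
      rw [mul_add, mul_one] at h4
      omega
    exact V_mono h2 (mem_V_succ_iff.2 h1)
  have hD'deg : ∀ y, (D' y).natDegree ≤ k * n₀ := by
    intro y
    have h1 := hD1' y
    rw [← hK, ← hn', ← hn₀, Nat.add_sub_cancel] at h1
    exact h1
  obtain ⟨r, -, x, hz⟩ := exists_zeroD hψ hk hkF hq (D := D) (D' := D') hDmem hD'deg
    (R := R) (P := P) (n₀ := n₀) (ω := ω) (by omega) hRn (by omega) hRP hωb hcond hi₀ hm hc
  obtain ⟨y, hy⟩ := Finset.card_ne_zero.1 hz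
  have hy' := (Finset.mem_filter.1 hy).2
  rw [EP_eq] at hy'
  obtain ⟨x', hx'1, hx'2⟩ := hD2' x.1
  obtain ⟨x₁, hx11, hx12⟩ := hD2 x.2.1
  obtain ⟨x₂, hx21, hx22⟩ := hD2 x.2.2
  have e : 9 * k + 3 * ℓ = 6 * k + (k + ℓ) + (k + ℓ) + (k + ℓ) := by ring
  rw [e]
  refine ⟨Fin.append (Fin.append (Fin.append (fun i => bb c P i + (y i : F[X]))
    (fun j => wp r * x' j)) x₁) x₂, ?_, ?_⟩
  · have hdeg : ∀ (w : F[X]), w ∈ degreeLT F (k ^ ℓ * T) → w.natDegree ≤ P := by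
      intro w hw
      have h1 : w ∈ degreeLT F (P + 1) := V_mono (by rw [← hK]; omega) hw
      exact mem_V_succ_iff.1 h1
    intro i
    refine Fin.addCases (fun i => ?_) (fun j => ?_) i
    · rw [Fin.append_left]
      refine Fin.addCases (fun i => ?_) (fun j => ?_) i
      · rw [Fin.append_left]
        refine Fin.addCases (fun i => ?_) (fun j => ?_) i
        · rw [Fin.append_left]
          exact natDegree_bb c P i (y i).2
        · rw [Fin.append_right]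
          refine le_trans natDegree_mul_le ?_
          rw [wp_natDegree]
          have h1 : x' j ∈ degreeLT F (n₀ + 1) := V_mono (by rw [hn₀]) (hx'1 j)
          have := mem_V_succ_iff.1 h1
          omega
      · rw [Fin.append_right]
        exact hdeg _ (hx11 j)
    · rw [Fin.append_right]
      exact hdeg _ (hx21 j)
  · rw [Fin.sum_univ_add, Fin.sum_univ_add, Fin.sum_univ_add]
    simp only [Fin.append_left, Fin.append_right]
    have h1 : ∑ i, (bb c P i + (y i : F[X])) ^ k = m - blk k D D' r x := sub_eq_zero.1 hy'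
    have h2 : ∑ j, (wp r * x' j) ^ k = wp r ^ k * D' x.1 := by
      rw [← hx'2, Finset.mul_sum]
      apply Finset.sum_congr rfl
      intro j _
      rw [mul_pow]
    rw [h1, h2, hx12, hx22]
    unfold blk
    ring

lemma pow_succ_le (a : ℕ) : ∀ m, a ^ (m + 1) + (m + 1) * a ^ m ≤ (a + 1) ^ (m + 1)
  | 0 => by simp
  | (m + 1) => by
      have h := Nat.mul_le_mul_right (a + 1) (pow_succ_le a m)
      have e1 : (a + 1) ^ (m + 1 + 1) = (a + 1) ^ (m + 1) * (a + 1) := pow_succ _ _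
      rw [e1]
      refine le_trans ?_ h
      have e2 : a ^ (m + 1 + 1) + (m + 1 + 1) * a ^ (m + 1) + (m + 1) * a ^ m
          = (a ^ (m + 1) + (m + 1) * a ^ m) * (a + 1) := by ring
      rw [← e2]
      exact Nat.le_add_right _ _

lemma two_mul_pow_le {k : ℕ} (hk : 2 ≤ k) : 2 * (k - 1) ^ k ≤ k ^ k := by
  obtain ⟨n, rfl⟩ : ∃ n, k = n + 1 := ⟨k - 1, by omega⟩
  rw [Nat.add_sub_cancel]
  have h1 := pow_succ_le n n
  have h3 : n ^ (n + 1) ≤ (n + 1) * n ^ n := by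
    rw [pow_succ]; nlinarith [Nat.zero_le (n ^ n)]
  omega

/-- Strict representations of all polynomials of large degree. -/
theorem strict_of {F : Type v} [Field F] [Fintype F] {k s : ℕ} (hk : 2 ≤ k)
    (h : ∃ P₀ : ℕ, ∀ P, P₀ ≤ P → ∀ m ∈ degreeLT F (k * P + 1),
      ∃ x : Fin s → F[X], (∀ i, (x i).natDegree ≤ P) ∧ ∑ i, x i ^ k = m) :
    ∃ N : ℕ, ∀ m : F[X], N ≤ m.natDegree →
      ∃ x : Fin s → F[X], (∀ i, k * (x i).natDegree < m.natDegree + k) ∧ ∑ i, x i ^ k = m := by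
  obtain ⟨P₀, hP₀⟩ := h
  refine ⟨k * P₀, fun m hm => ?_⟩
  set P := (m.natDegree + (k - 1)) / k with hP
  have h1 : k * P ≤ m.natDegree + (k - 1) := Nat.mul_div_le _ _
  have h2 : m.natDegree ≤ k * P := by
    have h3 := Nat.div_add_mod (m.natDegree + (k - 1)) k
    have h4 : (m.natDegree + (k - 1)) % k < k := Nat.mod_lt _ (by omega)
    rw [← hP] at h3
    omega
  have h5 : P₀ ≤ P := by
    rw [hP, Nat.le_div_iff_mul_le (by omega), mul_comm]
    omega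
  obtain ⟨x, hx, hsum⟩ := hP₀ P h5 m (FQ.mem_V_succ_iff.2 h2)
  refine ⟨x, fun i => ?_, hsum⟩
  have := Nat.mul_le_mul_left k (hx i)
  omega

/-- The version with `ℓ = L k`. -/
theorem cond_of {k L q : ℕ} (hk : 2 ≤ k) (hq : (2 * k) ^ (6 * k) ≤ q ^ (2 ^ L)) (hq1 : 1 ≤ q) :
    (2 * k) ^ (6 * k * (k - 1) ^ (L * k)) ≤ q ^ (k ^ (L * k)) := by
  have h1 : 2 ^ L * (k - 1) ^ (L * k) ≤ k ^ (L * k) := by
    calc 2 ^ L * (k - 1) ^ (L * k) = (2 * (k - 1) ^ k) ^ L := by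
          rw [mul_pow, ← pow_mul, mul_comm L k]
      _ ≤ (k ^ k) ^ L := Nat.pow_le_pow_left (two_mul_pow_le hk) L
      _ = k ^ (L * k) := by rw [← pow_mul, mul_comm L k]
  calc (2 * k) ^ (6 * k * (k - 1) ^ (L * k)) = ((2 * k) ^ (6 * k)) ^ ((k - 1) ^ (L * k)) := by
        rw [← pow_mul]
    _ ≤ (q ^ (2 ^ L)) ^ ((k - 1) ^ (L * k)) := Nat.pow_le_pow_left hq _
    _ = q ^ (2 ^ L * (k - 1) ^ (L * k)) := by rw [← pow_mul]
    _ ≤ q ^ (k ^ (L * k)) := Nat.pow_le_pow_right hq1 h1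

end Pool.Agent.H598.LB
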