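import Pool.Agent.H598.AS.Exact
import Pool.Agent.H598.TK.Units

/-!
# The supremum of complete exponential sums of `k`-th powers
-/

namespace Pool.Agent.H598.LB

open Finset Polynomial Pool.Agent.H598.FQ
open Pool.Agent.H598.DG (Kn ism mis DN MN mem_DN mem_MN redN gk gk_spec lin_vec dvd_sub_mod
  mod_eq_of_dvd mul_mem_VN sum_fiber_le)
open Pool.Agent.H598.TK (wp wp_monic wp_natDegree wp_inj exists_wp pf pf_monic pf_irred pf_dvd
  exists_pf pf_coprime prod_pf_dvd card_pf_le card_roots_mod Un mem_Un card_Un)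
open Pool.Agent.H598.AS
open scoped Classical

variable {F : Type*} [Field F]

/-- The number of pairs with equal values. -/
noncomputable def coll {Y : Type*} {B : Type*} (D : Y → B) : ℕ :=
  Nat.card {y : Y × Y // D y.1 = D y.2}

lemma coll_eq {Y : Type*} [Fintype Y] {B : Type*} (D : Y → B)
    [DecidablePred (fun y : Y × Y => D y.1 = D y.2)] :
    coll D = (Finset.univ.filter (fun y : Y × Y => D y.1 = D y.2)).card := by
  rw [coll, Nat.card_eq_fintype_card, Fintype.card_subtype]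

/-- For squarefree `g` the number of solutions of `x ^ k ≡ c` modulo `g`. -/
theorem card_roots_sqfree {k : ℕ} (hk : 0 < k) {g : F[X]} (hg : g ≠ 0) (hsq : Squarefree g)
    (c : F[X]) (A : Finset F[X]) (h2 : ∀ x ∈ A, g ∣ x ^ k - c)
    (h3 : ∀ x ∈ A, ∀ y ∈ A, g ∣ x - y → x = y) : A.card ≤ k ^ (pf g).card := by
  have hinst : ∀ p : {p // p ∈ pf g}, Fact (Irreducible (p : F[X])) := fun p => ⟨pf_irred p.2⟩
  let T : ∀ p : {p // p ∈ pf g}, Finset (AdjoinRoot (p : F[X])) :=
    fun p => (nthRoots k (AdjoinRoot.mk (p : F[X]) c)).toFinset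
  have hT : ∀ p, (T p).card ≤ k := fun p =>
    le_trans (Multiset.toFinset_card_le _) (card_nthRoots k _)
  have hgp : g ∣ ∏ p ∈ pf g, p := by
    have h1 := (UniqueFactorizationMonoid.squarefree_iff_nodup_normalizedFactors hg).1 hsq
    have h5 := UniqueFactorizationMonoid.prod_normalizedFactors hg
    have h6 : ∏ p ∈ pf g, p = (UniqueFactorizationMonoid.normalizedFactors g).prod := by
      rw [Finset.prod_eq_multiset_prod, pf, Multiset.toFinset_val, Multiset.dedup_eq_self.2 h1,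
        Multiset.map_id']
    rw [h6]
    exact h5.symm.dvd
  have h4 : A.card ≤ (Fintype.piFinset T).card := by
    apply Finset.card_le_card_of_injOn (fun x => fun p : {p // p ∈ pf g} =>
      AdjoinRoot.mk (p : F[X]) x)
    · intro x hx
      rw [Finset.mem_coe, Fintype.mem_piFinset]
      intro p
      simp only [T]
      rw [Multiset.mem_toFinset, mem_nthRoots hk, ← map_pow, AdjoinRoot.mk_eq_mk]
      exact dvd_trans (pf_dvd p.2) (h2 x hx)
    · intro x hx y hy hxy
      apply h3 x hx y hy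
      refine dvd_trans hgp ?_
      apply Finset.prod_dvd_of_coprime
      · intro p hp p' hp' hne
        exact pf_coprime hp hp' hne
      · intro p hp
        have := congrFun hxy ⟨p, hp⟩
        rw [← AdjoinRoot.mk_eq_mk]
        exact this
  refine le_trans h4 ?_
  rw [Fintype.card_piFinset]
  calc ∏ p, (T p).card ≤ ∏ _p : {p // p ∈ pf g}, k := Finset.prod_le_prod' (fun p _ => hT p)
    _ = k ^ (pf g).card := by rw [Finset.prod_const, Finset.card_univ, Fintype.card_coe]

/-- Minimality: a polynomial whose multiples are killed is a multiple of the annihilator. -/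
lemma dvd_of_killed {d : ℕ} {p : Pr F d} (hp : Mi p) {r : F[X]} (h : ∀ w, Lp p (r * w) = 0) :
    wp p.1 ∣ r := by
  rw [← modByMonic_eq_zero_iff_dvd (wp_monic p.1)]
  by_contra hne
  have h1 : (r %ₘ wp p.1).natDegree < d := by
    have h2 := mod_mem (wp_monic p.1) (wp_natDegree p.1) r
    rcases Nat.eq_zero_or_pos d with h0 | hpos
    · exfalso
      subst h0
      apply hne
      ext j
      rw [mem_V_iff.1 h2 j (Nat.zero_le _), coeff_zero]
    · obtain ⟨e, rfl⟩ : ∃ e, d = e + 1 := ⟨d - 1, by omega⟩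
      rw [mem_V_succ_iff] at h2
      omega
  obtain ⟨w, hw⟩ := hp _ hne h1
  apply hw
  rw [← h w]
  apply Lp_congr
  have h3 := dvd_sub_mod (wp p.1) r
  have e : r %ₘ wp p.1 * w - r * w = -((r - r %ₘ wp p.1) * w) := by ring
  rw [e]
  exact (Dvd.dvd.mul_right h3 w).neg_right

section
variable [Fintype F]

/-- The second moment. -/
lemma sq_mean {ψ : AddChar F ℂ} (hψ : ψ ≠ 1) {M : ℕ} {W : Type*} [Fintype W]
    (φ : W → F[X]) (hφ : ∀ w, φ w ∈ degreeLT F M) :
    ∑ α : Fin M → F, ‖∑ w, ψ (lin α (φ w))‖ ^ 2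
      = (Fintype.card F : ℝ) ^ M * (coll φ : ℝ) := by
  have h1 : ((∑ α : Fin M → F, ‖∑ w, ψ (lin α (φ w))‖ ^ 2 : ℝ) : ℂ)
      = (((Fintype.card F : ℝ) ^ M * (coll φ : ℝ) : ℝ) : ℂ) := by
    rw [Complex.ofReal_sum]
    have h2 : ∀ α : Fin M → F, ((‖∑ w, ψ (lin α (φ w))‖ ^ 2 : ℝ) : ℂ)
        = ∑ x : W × W, ψ (lin α (φ x.1 - φ x.2)) := by
      intro α
      rw [← Complex.normSq_eq_norm_sq, ← Complex.mul_conj, map_sum, Finset.sum_mul_sum,
        Fintype.sum_prod_type]
      apply Finset.sum_congr rfl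
      intro x _
      apply Finset.sum_congr rfl
      intro y _
      rw [← AddChar.map_neg_eq_conj, ← AddChar.map_add_eq_mul, map_sub, sub_eq_add_neg]
    rw [Finset.sum_congr rfl (fun α _ => h2 α), Finset.sum_comm]
    have h3 : ∀ x : W × W, ∑ α : Fin M → F, ψ (lin α (φ x.1 - φ x.2))
        = if φ x.1 = φ x.2 then (Fintype.card F : ℂ) ^ M else 0 := by
      intro x
      rw [sum_lin hψ (Submodule.sub_mem _ (hφ x.1) (hφ x.2))]
      by_cases hx : φ x.1 = φ x.2
      · rw [if_pos hx, if_pos (sub_eq_zero.2 hx)]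
      · rw [if_neg hx, if_neg (sub_ne_zero.2 hx)]
    rw [Finset.sum_congr rfl (fun x _ => h3 x), ← Finset.sum_filter, Finset.sum_const,
      nsmul_eq_mul, coll_eq]
    push_cast
    rw [mul_comm]
  exact_mod_cast h1

/-- The number of congruent pairs modulo a squarefree polynomial. -/
lemma card_pairs {k : ℕ} (hk : 0 < k) {d : ℕ} {g : F[X]} (hg : g.Monic) (hd : g.natDegree = d)
    (hsq : Squarefree g) :
    coll (fun v : degreeLT F d => ((v : F[X]) ^ k) %ₘ g) ≤ Fintype.card F ^ d * k ^ d := by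
  have h1 : coll (fun v : degreeLT F d => ((v : F[X]) ^ k) %ₘ g)
      = ∑ v : degreeLT F d, (Finset.univ.filter (fun v' : degreeLT F d =>
        ((v : F[X]) ^ k) %ₘ g = ((v' : F[X]) ^ k) %ₘ g)).card := by
    rw [coll_eq, Finset.card_filter, Fintype.sum_prod_type]
    apply Finset.sum_congr rfl
    intro v _
    rw [Finset.card_filter]
  rw [h1]
  have h2 : ∀ v : degreeLT F d, (Finset.univ.filter (fun v' : degreeLT F d =>
        ((v : F[X]) ^ k) %ₘ g = ((v' : F[X]) ^ k) %ₘ g)).card ≤ k ^ d := by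
    intro v
    have h3 : (Finset.univ.filter (fun v' : degreeLT F d =>
        ((v : F[X]) ^ k) %ₘ g = ((v' : F[X]) ^ k) %ₘ g)).card
        = ((Finset.univ.filter (fun v' : degreeLT F d =>
        ((v : F[X]) ^ k) %ₘ g = ((v' : F[X]) ^ k) %ₘ g)).image Subtype.val).card := by
      rw [Finset.card_image_of_injective _ Subtype.val_injective]
    rw [h3]
    refine le_trans (card_roots_sqfree hk hg.ne_zero hsq ((v : F[X]) ^ k) _ ?_ ?_) ?_
    · intro x hx
      obtain ⟨v', hv', rfl⟩ := Finset.mem_image.1 hx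
      have h4 := (Finset.mem_filter.1 hv').2
      have e1 := dvd_sub_mod g ((v : F[X]) ^ k)
      have e2 := dvd_sub_mod g ((v' : F[X]) ^ k)
      rw [h4] at e1
      have := dvd_sub e2 e1
      have e3 : (v' : F[X]) ^ k - ((v' : F[X]) ^ k) %ₘ g - ((v : F[X]) ^ k - ((v' : F[X]) ^ k) %ₘ g)
          = (v' : F[X]) ^ k - (v : F[X]) ^ k := by ring
      rwa [e3] at this
    · intro x hx y hy hxy
      obtain ⟨v', -, rfl⟩ := Finset.mem_image.1 hx
      obtain ⟨v'', -, rfl⟩ := Finset.mem_image.1 hy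
      rw [← mod_eq_self hg hd v'.2, ← mod_eq_self hg hd v''.2]
      exact mod_eq_of_dvd hg hxy
    · refine Nat.pow_le_pow_right (by omega) ?_
      have := card_pf_le hg.ne_zero
      rwa [hd] at this
  refine le_trans (Finset.sum_le_sum (fun v _ => h2 v)) ?_
  rw [Finset.sum_const, Finset.card_univ, card_V, smul_eq_mul]

/-- The functional multiplied by the `k`-th power of a unit. -/
noncomputable def vu {d : ℕ} (k : ℕ) (p : Pr F d) (u : F[X]) : Fin d → F :=
  fun j => Lp p (u ^ k * X ^ (j : ℕ))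

omit [Fintype F] in
lemma Lp_vu {d : ℕ} (k : ℕ) (p : Pr F d) (u w : F[X]) :
    Lp (p.1, vu k p u) w = Lp p (u ^ k * w) := by
  have h := eq_Lp (L := (Lp p).comp (LinearMap.mulLeft F (u ^ k))) p.1 (by
    intro w
    rw [LinearMap.comp_apply, LinearMap.mulLeft_apply,
      show u ^ k * (wp p.1 * w) = wp p.1 * (u ^ k * w) by ring, Lp_kill])
  have h2 := congrArg (fun L : F[X] →ₗ[F] F => L w) h
  simp only [LinearMap.comp_apply, LinearMap.mulLeft_apply] at h2
  rw [h2]
  rfl

lemma Sd_vu (ψ : AddChar F ℂ) {d : ℕ} (k : ℕ) (p : Pr F d) {u : F[X]}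
    (hu : IsCoprime u (wp p.1)) : Sd ψ (Lp (p.1, vu k p u)) k 1 d = Sd ψ (Lp p) k 1 d := by
  set g := wp p.1 with hgdef
  have hg : g.Monic := wp_monic _
  have hd : g.natDegree = d := wp_natDegree _
  let e : degreeLT F d → degreeLT F d := fun v => ⟨(u * (v : F[X])) %ₘ g, mod_mem hg hd _⟩
  have hinj : Function.Injective e := by
    intro v v' h
    have h2 : (u * (v : F[X])) %ₘ g = (u * (v' : F[X])) %ₘ g := congrArg Subtype.val h
    have h3 : g ∣ u * ((v : F[X]) - v') := by
      have e1 := dvd_sub_mod g (u * (v : F[X]))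
      have e2 := dvd_sub_mod g (u * (v' : F[X]))
      rw [h2] at e1
      have := dvd_sub e1 e2
      have e3 : u * (v : F[X]) - (u * (v' : F[X])) %ₘ g
          - (u * (v' : F[X]) - (u * (v' : F[X])) %ₘ g) = u * ((v : F[X]) - v') := by ring
      rwa [e3] at this
    have h5 : g ∣ (v : F[X]) - v' := hu.symm.dvd_of_dvd_mul_left h3
    have h6 : (v : F[X]) %ₘ g = (v' : F[X]) %ₘ g := mod_eq_of_dvd hg h5
    rw [mod_eq_self hg hd v.2, mod_eq_self hg hd v'.2] at h6
    exact Subtype.ext h6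
  have hbij : Function.Bijective e := Finite.injective_iff_bijective.1 hinj
  unfold Sd
  rw [← Function.Bijective.sum_comp hbij (fun z : degreeLT F d => ψ (Lp p (1 * (z : F[X]) ^ k)))]
  apply Finset.sum_congr rfl
  intro v _
  congr 1
  change Lp (p.1, vu k p u) (1 * (v : F[X]) ^ k) = Lp p (1 * ((u * (v : F[X])) %ₘ g) ^ k)
  rw [Lp_vu]
  apply Lp_congr
  rw [one_mul, one_mul, ← mul_pow]
  exact dvd_trans (dvd_sub_mod _ _) (sub_dvd_pow_sub_pow _ _ _)

/-- The bound for the complete sum with a squarefree annihilator. -/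
lemma sup_sqfree {ψ : AddChar F ℂ} (hψ : ψ ≠ 1) {k : ℕ} (hk : 0 < k) (hkF : (k : F) ≠ 0)
    {d : ℕ} {p : Pr F d} (hp : Mi p) (hsq : Squarefree (wp p.1)) :
    ((Fintype.card F : ℝ) - 1) ^ d * sig ψ k 1 p ^ 2 ≤ (k : ℝ) ^ (2 * d) := by
  set q : ℝ := (Fintype.card F : ℝ) with hq
  have hq0 : 0 < q := by rw [hq]; exact_mod_cast Fintype.card_pos
  have h1 := sum_fiber_le (Un (wp p.1) d) (fun u : degreeLT F d => vu k p (u : F[X]))
    (fun β => ‖Sd ψ (Lp (p.1, β)) k 1 d‖ ^ 2) (fun β => by positivity) ((k : ℝ) ^ d) (by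
      intro β
      have h2 : ((Un (wp p.1) d).filter (fun u : degreeLT F d => vu k p (u : F[X]) = β)).card ≤ k ^ d := by
        rcases Finset.eq_empty_or_nonempty
          ((Un (wp p.1) d).filter (fun u : degreeLT F d => vu k p (u : F[X]) = β)) with h0 | ⟨u₀, hu₀⟩
        · rw [h0]; simp
        · have h3 : ((Un (wp p.1) d).filter (fun u : degreeLT F d => vu k p (u : F[X]) = β)).card
              = (((Un (wp p.1) d).filter (fun u : degreeLT F d => vu k p (u : F[X]) = β)).image
                (Subtype.val : degreeLT F d → F[X])).card := by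
            rw [Finset.card_image_of_injective _ Subtype.val_injective]
          rw [h3]
          refine le_trans (card_roots_mod hk hkF (wp_monic p.1).ne_zero ((u₀ : F[X]) ^ k) _
            ?_ ?_ ?_) ?_
          · intro x hx
            obtain ⟨u, hu, rfl⟩ := Finset.mem_image.1 hx
            exact mem_Un.1 (Finset.mem_filter.1 hu).1
          · intro x hx
            obtain ⟨u, hu, rfl⟩ := Finset.mem_image.1 hx
            apply dvd_of_killed hp
            intro w
            rw [sub_mul, map_sub, ← Lp_vu, ← Lp_vu, (Finset.mem_filter.1 hu).2,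
              (Finset.mem_filter.1 hu₀).2, sub_self]
          · intro x hx y hy hxy
            obtain ⟨u, -, rfl⟩ := Finset.mem_image.1 hx
            obtain ⟨u', -, rfl⟩ := Finset.mem_image.1 hy
            rw [← mod_eq_self (wp_monic p.1) (wp_natDegree p.1) u.2,
              ← mod_eq_self (wp_monic p.1) (wp_natDegree p.1) u'.2]
            exact mod_eq_of_dvd (wp_monic p.1) hxy
          · refine Nat.pow_le_pow_right (by omega) ?_
            have := card_pf_le (wp_monic p.1).ne_zero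
            rwa [wp_natDegree] at this
      have h11 : (((Un (wp p.1) d).filter (fun u : degreeLT F d => vu k p (u : F[X]) = β)).card : ℝ)
          ≤ (k : ℝ) ^ d := by exact_mod_cast h2
      convert h11)
  have h3 : ∀ u ∈ Un (wp p.1) d, ‖Sd ψ (Lp (p.1, vu k p (u : F[X]))) k 1 d‖ ^ 2
      = ‖Sd ψ (Lp p) k 1 d‖ ^ 2 := by
    intro u hu
    rw [Sd_vu ψ k p (mem_Un.1 hu)]
  rw [Finset.sum_congr rfl h3, Finset.sum_const, nsmul_eq_mul] at h1
  have h4 : ∑ β : Fin d → F, ‖Sd ψ (Lp (p.1, β)) k 1 d‖ ^ 2 ≤ q ^ d * (q ^ d * (k : ℝ) ^ d) := by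
    have h5 := sq_mean hψ (M := d) (W := degreeLT F d)
      (fun v => ((v : F[X]) ^ k) %ₘ wp p.1) (fun v => mod_mem (wp_monic _) (wp_natDegree _) _)
    have h6 : ∀ β : Fin d → F, Sd ψ (Lp (p.1, β)) k 1 d
        = ∑ v : degreeLT F d, ψ (lin β (((v : F[X]) ^ k) %ₘ wp p.1)) := by
      intro β
      unfold Sd
      apply Finset.sum_congr rfl
      intro v _
      rw [one_mul]
      rfl
    rw [Finset.sum_congr rfl (fun β _ => by rw [h6 β]), h5]
    apply mul_le_mul_of_nonneg_left _ (by positivity)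
    have h7 := card_pairs hk (wp_monic p.1) (wp_natDegree p.1) hsq
    rw [hq]
    exact_mod_cast h7
  have h15 : (q - 1) ^ d ≤ ((Un (wp p.1) d).card : ℝ) := by
    have := card_Un d (wp p.1) (wp_monic _) (wp_natDegree _)
    have h16 : (((Fintype.card F - 1) ^ d : ℕ) : ℝ) ≤ ((Un (wp p.1) d).card : ℝ) := by
      exact_mod_cast this
    rw [Nat.cast_pow, Nat.cast_sub Fintype.card_pos, Nat.cast_one] at h16
    exact h16
  unfold sig
  rw [div_pow, ← mul_div_assoc, div_le_iff₀ (by positivity)]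
  calc (q - 1) ^ d * ‖Sd ψ (Lp p) k 1 d‖ ^ 2
      ≤ ((Un (wp p.1) d).card : ℝ) * ‖Sd ψ (Lp p) k 1 d‖ ^ 2 :=
        mul_le_mul_of_nonneg_right h15 (by positivity)
    _ ≤ (k : ℝ) ^ d * ∑ β : Fin d → F, ‖Sd ψ (Lp (p.1, β)) k 1 d‖ ^ 2 := h1
    _ ≤ (k : ℝ) ^ d * (q ^ d * (q ^ d * (k : ℝ) ^ d)) :=
        mul_le_mul_of_nonneg_left h4 (by positivity)
    _ = (k : ℝ) ^ (2 * d) * (q ^ d) ^ 2 := by rw [mul_comm 2 d, pow_mul]; ring

end

end Pool.Agent.H598.LB
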