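import Pool.Agent.H598.LB.Sup

/-!
# The supremum of complete exponential sums of `k`-th powers: the general case
-/

namespace Pool.Agent.H598.LB

open Finset Polynomial Pool.Agent.H598.FQ
open Pool.Agent.H598.DG (Kn ism mis DN MN mem_DN mem_MN redN gk gk_spec lin_vec dvd_sub_mod
  mod_eq_of_dvd mul_mem_VN sum_fiber_le)
open Pool.Agent.H598.TK (wp wp_monic wp_natDegree wp_inj exists_wp pf pf_monic pf_irred pf_dvd
  exists_pf mem_of_mul_mem mul_mem_left)
open Pool.Agent.H598.AS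
open scoped Classical

variable {F : Type*} [Field F] [Fintype F]

omit [Fintype F] in
/-- Expansion modulo `h ^ 2`. -/
lemma add_pow_mod (k : ℕ) (hk : 1 ≤ k) (v h : F[X]) :
    h ^ 2 ∣ (v + h) ^ k - (v ^ k + (k : F[X]) * v ^ (k - 1) * h) := by
  obtain ⟨n, rfl⟩ : ∃ n, k = n + 1 := ⟨k - 1, by omega⟩
  rw [Nat.add_sub_cancel]
  induction n with
  | zero => simp
  | succ n ih =>
    obtain ⟨c, hc⟩ := ih (by omega)
    refine ⟨c * (v + h) + ((n + 1 : ℕ) : F[X]) * v ^ n, ?_⟩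
    have e1 : (v + h) ^ (n + 1 + 1) = (v + h) ^ (n + 1) * (v + h) := pow_succ _ _
    have e2 : (v + h) ^ (n + 1) = h ^ 2 * c + (v ^ (n + 1) + ((n + 1 : ℕ) : F[X]) * v ^ n * h) := by
      rw [← hc]; ring
    rw [e1, e2]
    push_cast
    ring

/-- The reduction for a square factor. -/
theorem red_square {ψ : AddChar F ℂ} (hψ : ψ ≠ 1) {k : ℕ} (hk : 2 ≤ k) (hkF : (k : F) ≠ 0)
    {d : ℕ} {p : Pr F d} (hp : Mi p) {π h : F[X]} (hπ : Irreducible π) (hπm : π.Monic)
    (hph : wp p.1 = π * h) (hπh : π ∣ h) :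
    ∃ x : Σ d' : ℕ, Pr F d', x.1 < d ∧ d ≤ x.1 + k * π.natDegree ∧ Mi x.2 ∧
      (Fintype.card F : ℝ) ^ π.natDegree * sig ψ k 1 p = sig ψ k 1 x.2 := by
  set δ := π.natDegree with hδ
  have hδ1 : 1 ≤ δ := hπ.natDegree_pos
  set g := wp p.1 with hg
  have hgm : g.Monic := wp_monic _
  have hgd : g.natDegree = d := wp_natDegree _
  have hh0 : h ≠ 0 := by
    rintro rfl
    rw [mul_zero] at hph
    exact hgm.ne_zero hph
  have hhd : δ + h.natDegree = d := by
    rw [← hgd, hph, natDegree_mul hπ.ne_zero hh0]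
  obtain ⟨h', hh'⟩ := hπh
  have hgh : g ∣ h ^ 2 := ⟨h', by rw [hph, pow_two]; nth_rewrite 2 [hh']; ring⟩
  -- the averaging argument
  have hht : ∀ t : degreeLT F δ, h * (t : F[X]) ∈ degreeLT F d := by
    intro t
    have := mul_mem_left (rfl : h.natDegree = h.natDegree) t.2
    exact V_mono (by omega) this
  have hmain : ∀ t : degreeLT F δ, Sd ψ (Lp p) k 1 d
      = ∑ v : degreeLT F d, ψ (Lp p ((v : F[X]) ^ k))
        * ψ (Lp p ((k : F[X]) * (v : F[X]) ^ (k - 1) * (h * (t : F[X])))) := by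
    intro t
    have h1 := Equiv.sum_comp (Equiv.addRight (⟨h * (t : F[X]), hht t⟩ : degreeLT F d))
      (fun z : degreeLT F d => ψ (Lp p (1 * (z : F[X]) ^ k)))
    unfold Sd
    rw [← h1]
    apply Finset.sum_congr rfl
    intro v _
    rw [← AddChar.map_add_eq_mul, ← map_add]
    congr 1
    change Lp p (1 * ((v : F[X]) + h * (t : F[X])) ^ k) = _
    rw [one_mul]
    apply Lp_congr
    refine dvd_trans ?_ (add_pow_mod k (by omega) (v : F[X]) (h * (t : F[X])))
    rw [mul_pow]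
    exact Dvd.dvd.mul_right hgh _
  have hinner : ∀ v : degreeLT F d, ∑ t : degreeLT F δ,
      ψ (Lp p ((k : F[X]) * (v : F[X]) ^ (k - 1) * (h * (t : F[X]))))
      = if π ∣ (v : F[X]) then (Fintype.card F : ℂ) ^ δ else 0 := by
    intro v
    have h4 := sum_char_lin hψ (W := degreeLT F δ)
      (((Lp p).comp (LinearMap.mulLeft F ((k : F[X]) * (v : F[X]) ^ (k - 1) * h))).comp
        (degreeLT F δ).subtype)
    have h5 : (∀ w : degreeLT F δ, Lp p ((k : F[X]) * (v : F[X]) ^ (k - 1) * h * (w : F[X])) = 0)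
        ↔ π ∣ (v : F[X]) := by
      constructor
      · intro hw
        have h6 : ∀ w, Lp p ((k : F[X]) * (v : F[X]) ^ (k - 1) * h * w) = 0 := by
          intro w
          rw [← hw ⟨w %ₘ π, mod_mem hπm hδ.symm w⟩]
          apply Lp_congr
          have h7 := dvd_sub_mod π w
          have e : (k : F[X]) * (v : F[X]) ^ (k - 1) * h * w
              - (k : F[X]) * (v : F[X]) ^ (k - 1) * h * (w %ₘ π)
              = (h * (w - w %ₘ π)) * ((k : F[X]) * (v : F[X]) ^ (k - 1)) := by ring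
          change wp p.1 ∣ (k : F[X]) * (v : F[X]) ^ (k - 1) * h * w
              - (k : F[X]) * (v : F[X]) ^ (k - 1) * h * (w %ₘ π)
          rw [e, ← hg, hph, mul_comm π h]
          exact Dvd.dvd.mul_right (mul_dvd_mul_left _ h7) _
        have h8 := dvd_of_killed hp h6
        rw [← hg, hph] at h8
        have h9 : π ∣ (k : F[X]) * (v : F[X]) ^ (k - 1) := by
          rw [mul_comm π h, mul_comm ((k : F[X]) * (v : F[X]) ^ (k - 1)) h] at h8
          exact (mul_dvd_mul_iff_left hh0).1 h8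
        rcases hπ.prime.dvd_or_dvd h9 with h10 | h10
        · exfalso
          have h7 : IsUnit ((k : F[X])) := by
            rw [← map_natCast (C : F →+* F[X]), isUnit_C]
            exact hkF.isUnit
          exact hπ.not_isUnit (isUnit_of_dvd_unit h10 h7)
        · exact hπ.prime.dvd_of_dvd_pow h10
      · rintro ⟨c, hc⟩ w
        have h6 : wp p.1 ∣ (k : F[X]) * (v : F[X]) ^ (k - 1) * h * (w : F[X]) - 0 := by
          rw [← hg, hph, sub_zero, hc]
          obtain ⟨n, rfl⟩ : ∃ n, k = n + 2 := ⟨k - 2, by omega⟩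
          refine ⟨((n + 2 : ℕ) : F[X]) * π ^ n * c ^ (n + 1) * (w : F[X]), ?_⟩
          have e : n + 2 - 1 = n + 1 := by omega
          rw [e, mul_pow, pow_succ π n]
          ring
        rw [Lp_congr p h6, map_zero]
    by_cases hv : π ∣ (v : F[X])
    · rw [if_pos (by exact h5.2 hv)] at h4
      simp only [LinearMap.comp_apply, Submodule.subtype_apply, LinearMap.mulLeft_apply] at h4
      rw [if_pos hv, card_V] at *
      push_cast at h4
      rw [← h4]
      apply Finset.sum_congr rfl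
      intro t _
      congr 2
      ring
    · rw [if_neg (by exact fun h => hv (h5.1 h))] at h4
      simp only [LinearMap.comp_apply, Submodule.subtype_apply, LinearMap.mulLeft_apply] at h4
      rw [if_neg hv, ← h4]
      apply Finset.sum_congr rfl
      intro t _
      congr 2
      ring
  have hqC : (Fintype.card F : ℂ) ^ δ ≠ 0 :=
    pow_ne_zero _ (by exact_mod_cast Fintype.card_ne_zero)
  have hS : Sd ψ (Lp p) k 1 d
      = ∑ v : degreeLT F d, if π ∣ (v : F[X]) then ψ (Lp p ((v : F[X]) ^ k)) else 0 := by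
    apply mul_left_cancel₀ hqC
    have h1 : (Fintype.card F : ℂ) ^ δ * Sd ψ (Lp p) k 1 d
        = ∑ _t : degreeLT F δ, Sd ψ (Lp p) k 1 d := by
      rw [Finset.sum_const, Finset.card_univ, card_V, nsmul_eq_mul]
      push_cast
      rfl
    rw [h1, Finset.sum_congr rfl (fun t _ => hmain t), Finset.sum_comm, Finset.mul_sum]
    apply Finset.sum_congr rfl
    intro v _
    rw [← Finset.mul_sum, hinner v]
    by_cases hv : π ∣ (v : F[X])
    · rw [if_pos hv, if_pos hv, mul_comm]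
    · rw [if_neg hv, if_neg hv, mul_zero, mul_zero]
  -- the multiples of `π`
  obtain ⟨x, hx1, hx2, hx3, hx4, -⟩ := exists_red (k := k) (pow_ne_zero k hπ.ne_zero) hp ψ
  have hx2' : d ≤ x.1 + k * δ := by rwa [natDegree_pow] at hx2
  have hx5 : x.1 + δ ≤ d := by
    by_contra hcon
    push Not at hcon
    obtain ⟨w, hw⟩ := hx3 h hh0 (by omega)
    apply hw
    rw [← hx4]
    have h6 : wp p.1 ∣ π ^ k * (h * w) - 0 := by
      rw [← hg, hph, sub_zero]
      obtain ⟨n, rfl⟩ : ∃ n, k = n + 1 := ⟨k - 1, by omega⟩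
      refine ⟨π ^ n * w, ?_⟩
      rw [pow_succ]; ring
    rw [Lp_congr p h6, map_zero]
  have hS2 : Sd ψ (Lp p) k 1 d = Sd ψ (Lp x.2) k 1 (d - δ) := by
    rw [hS, ← Finset.sum_filter]
    unfold Sd
    symm
    apply Finset.sum_bij (fun (w : degreeLT F (d - δ)) _ => (⟨π * (w : F[X]), by
      have := mul_mem_left hδ.symm w.2
      exact V_mono (by omega) this⟩ : degreeLT F d))
    · intro w _
      rw [Finset.mem_filter]
      exact ⟨Finset.mem_univ _, dvd_mul_right _ _⟩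
    · intro w _ w' _ hww
      have h1 : π * (w : F[X]) = π * (w' : F[X]) := congrArg Subtype.val hww
      exact Subtype.ext (mul_left_cancel₀ hπ.ne_zero h1)
    · intro v hv
      obtain ⟨c, hc⟩ := (Finset.mem_filter.1 hv).2
      have hv2 := v.2
      rw [hc] at hv2
      refine ⟨⟨c, ?_⟩, Finset.mem_univ _, Subtype.ext hc.symm⟩
      apply mem_of_mul_mem hπ.ne_zero hδ.symm
      have e : δ + (d - δ) = d := by omega
      rw [e]
      exact hv2
    · intro w _
      rw [one_mul, ← hx4]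
      congr 2
      change π ^ k * (w : F[X]) ^ k = (π * (w : F[X])) ^ k
      rw [mul_pow]
  obtain ⟨e, he⟩ : ∃ e, d - δ = x.1 + e := ⟨d - δ - x.1, by omega⟩
  have h5 := Sd_split ψ (wp_monic x.2.1) (wp_natDegree x.2.1) (fun w => Lp_kill x.2 w) k 1 e
  refine ⟨x, by omega, hx2', hx3, ?_⟩
  have hq0 : (Fintype.card F : ℝ) ≠ 0 := by exact_mod_cast Fintype.card_ne_zero
  unfold sig
  rw [hS2, he, h5, norm_mul, norm_pow, Complex.norm_natCast]
  have e2 : d = δ + x.1 + e := by omega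
  have e3 : (Fintype.card F : ℝ) ^ d
      = (Fintype.card F : ℝ) ^ δ * (Fintype.card F : ℝ) ^ x.1 * (Fintype.card F : ℝ) ^ e := by
    rw [← pow_add, ← pow_add, ← e2]
  rw [e3]
  have h6 : (Fintype.card F : ℝ) ^ δ ≠ 0 := pow_ne_zero _ hq0
  have h7 : (Fintype.card F : ℝ) ^ x.1 ≠ 0 := pow_ne_zero _ hq0
  have h8 : (Fintype.card F : ℝ) ^ e ≠ 0 := pow_ne_zero _ hq0
  field_simp

/-- The bound for all complete sums. -/
theorem sup_bound {ψ : AddChar F ℂ} (hψ : ψ ≠ 1) {k : ℕ} (hk : 2 ≤ k) (hkF : (k : F) ≠ 0) :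
    ∀ (d : ℕ) (p : Pr F d), Mi p →
      ((Fintype.card F : ℝ) - 1) ^ d * sig ψ k 1 p ^ (2 * k) ≤ (k : ℝ) ^ (2 * d) := by
  intro d
  induction d using Nat.strong_induction_on with
  | _ d ih =>
  intro p hp
  set q : ℝ := (Fintype.card F : ℝ) with hq
  have hq1 : (1 : ℝ) < q := by rw [hq]; exact_mod_cast Fintype.one_lt_card
  have hk1 : (1 : ℝ) ≤ k := by exact_mod_cast (show 1 ≤ k by omega)
  have hs0 := sig_nonneg ψ k 1 p
  have hs1 := sig_le_one ψ k 1 p
  by_cases hsq : Squarefree (wp p.1)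
  · refine le_trans (mul_le_mul_of_nonneg_left ?_ (pow_nonneg (by linarith) d))
      (sup_sqfree hψ (by omega) hkF hp hsq)
    exact pow_le_pow_of_le_one hs0 hs1 (by omega)
  · have h1 : ∃ π : F[X], π ∈ pf (wp p.1) ∧ π * π ∣ wp p.1 := by
      by_contra hcon
      push Not at hcon
      apply hsq
      rw [squarefree_iff_irreducible_sq_not_dvd_of_ne_zero (wp_monic p.1).ne_zero]
      intro z hz hzz
      obtain ⟨π, hπ, hass⟩ := exists_pf (wp_monic p.1).ne_zero hz (dvd_trans (dvd_mul_right _ _) hzz)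
      exact hcon π hπ (((hass.mul_mul hass).symm.dvd).trans hzz)
    obtain ⟨π, hπ, c, hc⟩ := h1
    obtain ⟨x, hx1, hx2, hx3, hx4⟩ := red_square hψ hk hkF hp (pf_irred hπ) (pf_monic hπ)
      (h := π * c) (by rw [hc]; ring) (dvd_mul_right _ _)
    have h2 := ih x.1 hx1 x.2 hx3
    set δ := π.natDegree with hδ
    rw [← hq] at hx4
    rw [← hx4] at h2
    obtain ⟨e, he⟩ : ∃ e, d = x.1 + e := ⟨d - x.1, by omega⟩
    have he2 : e ≤ k * δ := by omega
    have h3 : (q - 1) ^ e ≤ (q ^ δ) ^ (2 * k) := by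
      calc (q - 1) ^ e ≤ q ^ e := pow_le_pow_left₀ (by linarith) (by linarith) e
        _ ≤ q ^ (δ * (2 * k)) := by
            apply pow_le_pow_right₀ hq1.le
            calc e ≤ k * δ := he2
              _ ≤ δ * (2 * k) := by nlinarith
        _ = (q ^ δ) ^ (2 * k) := pow_mul _ _ _
    rw [mul_pow] at h2
    have hx0 : 0 ≤ (q - 1) ^ x.1 := pow_nonneg (by linarith) _
    calc (q - 1) ^ d * sig ψ k 1 p ^ (2 * k)
        = (q - 1) ^ x.1 * (q - 1) ^ e * sig ψ k 1 p ^ (2 * k) := by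
          have hpe : (q - 1) ^ d = (q - 1) ^ x.1 * (q - 1) ^ e := by rw [← pow_add, ← he]
          rw [hpe]
      _ ≤ (q - 1) ^ x.1 * (q ^ δ) ^ (2 * k) * sig ψ k 1 p ^ (2 * k) := by
          apply mul_le_mul_of_nonneg_right _ (by positivity)
          exact mul_le_mul_of_nonneg_left h3 hx0
      _ = (q - 1) ^ x.1 * ((q ^ δ) ^ (2 * k) * sig ψ k 1 p ^ (2 * k)) := by ring
      _ ≤ (k : ℝ) ^ (2 * x.1) := h2
      _ ≤ (k : ℝ) ^ (2 * d) := pow_le_pow_right₀ hk1 (by omega)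

lemma card_Pm (d : ℕ) : ((Pm F d).card : ℝ) ≤ (Fintype.card F : ℝ) ^ (2 * d) := by
  have h2 : (Pm F d).card ≤ Fintype.card F ^ (2 * d) := by
    refine le_trans (Finset.card_filter_le _ _) ?_
    rw [Finset.card_univ, Fintype.card_prod, card_V, Fintype.card_fun, Fintype.card_fin,
      ← pow_add, two_mul]
  exact_mod_cast h2

/-- The contribution of a level for `6 k` variables. -/
theorem Ad_bound {ψ : AddChar F ℂ} (hψ : ψ ≠ 1) {k : ℕ} (hk : 2 ≤ k) (hkF : (k : F) ≠ 0)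
    (hq : 128 * k ^ 6 ≤ Fintype.card F) (m : F[X]) (d : ℕ) :
    ‖Ad ψ k (fun _ : Fin (6 * k) => (1 : F[X])) m d‖ ≤ 1 / 16 ^ d := by
  set q : ℝ := (Fintype.card F : ℝ) with hqdef
  have hqR : 128 * (k : ℝ) ^ 6 ≤ q := by rw [hqdef]; exact_mod_cast hq
  have hk1 : (1 : ℝ) ≤ k := by exact_mod_cast (show 1 ≤ k by omega)
  have hk6 : (1 : ℝ) ≤ (k : ℝ) ^ 6 := one_le_pow₀ hk1
  have hq2 : 2 ≤ q := by linarith
  have hq0 : 0 < q := by linarith
  have hq1 : 0 < q - 1 := by linarith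
  unfold Ad
  refine le_trans (norm_sum_le _ _) ?_
  have h1 : ∀ p ∈ Pm F d, ‖tau ψ k (fun _ : Fin (6 * k) => (1 : F[X])) m p‖
      ≤ ((k : ℝ) ^ (2 * d) / (q - 1) ^ d) ^ 3 := by
    intro p hp
    rw [norm_tau, Finset.prod_const, Finset.card_univ, Fintype.card_fin]
    have h2 := sup_bound hψ hk hkF d p (mem_Pm.1 hp)
    rw [← hqdef] at h2
    have h3 : sig ψ k 1 p ^ (2 * k) ≤ (k : ℝ) ^ (2 * d) / (q - 1) ^ d := by
      rw [le_div_iff₀ (by positivity), mul_comm]
      exact h2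
    calc sig ψ k 1 p ^ (6 * k) = (sig ψ k 1 p ^ (2 * k)) ^ 3 := by
          rw [← pow_mul]; congr 1; ring
      _ ≤ _ := pow_le_pow_left₀ (pow_nonneg (sig_nonneg _ _ _ _) _) h3 3
  refine le_trans (Finset.sum_le_sum h1) ?_
  rw [Finset.sum_const, nsmul_eq_mul]
  refine le_trans (mul_le_mul_of_nonneg_right (card_Pm d) (by positivity)) ?_
  rw [← hqdef]
  have h4 : q ^ 2 * ((k : ℝ) ^ 2) ^ 3 * 16 ≤ (q - 1) ^ 3 := by
    have h5 : q / 2 ≤ q - 1 := by linarith
    have h6 : (q / 2) ^ 3 ≤ (q - 1) ^ 3 := pow_le_pow_left₀ (by positivity) h5 3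
    have h7 : q ^ 2 * (128 * (k : ℝ) ^ 6) ≤ q ^ 2 * q :=
      mul_le_mul_of_nonneg_left hqR (by positivity)
    have e1 : (q / 2) ^ 3 = q ^ 3 / 8 := by ring
    have e2 : ((k : ℝ) ^ 2) ^ 3 = (k : ℝ) ^ 6 := by ring
    rw [e1] at h6
    rw [e2]
    have e3 : q ^ 2 * q = q ^ 3 := by ring
    rw [e3] at h7
    linarith
  have h8 : q ^ (2 * d) * ((k : ℝ) ^ (2 * d) / (q - 1) ^ d) ^ 3
      = (q ^ 2 * ((k : ℝ) ^ 2) ^ 3 / (q - 1) ^ 3) ^ d := by
    have e1 : ((k : ℝ) ^ (2 * d)) ^ 3 = (((k : ℝ) ^ 2) ^ 3) ^ d := by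
      rw [← pow_mul, ← pow_mul, ← pow_mul]; congr 1; ring
    have e2 : ((q - 1) ^ d) ^ 3 = ((q - 1) ^ 3) ^ d := by
      rw [← pow_mul, ← pow_mul]; congr 1; ring
    have e3 : q ^ (2 * d) = (q ^ 2) ^ d := pow_mul _ _ _
    rw [div_pow, div_pow, mul_pow, e1, e2, e3]
    ring
  rw [h8, show (1 : ℝ) / 16 ^ d = (1 / 16) ^ d by rw [div_pow, one_pow]]
  apply pow_le_pow_left₀ (by positivity)
  rw [div_le_div_iff₀ (by positivity) (by norm_num)]
  linarith

end Pool.Agent.H598.LB
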